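import Pool.Agent.MP_b811f7_nt.Resid

set_option autoImplicit false

namespace Pool.Agent.MP_b811f7_nt

open Polynomial

variable {K : Type*} [Field K] {φ : (ZMod 3)[X] →+* K} {y : K}

/-- the valuation ring `O` lies above `qW` -/
structure Above (φ : (ZMod 3)[X] →+* K) (O : ValuationSubring K) : Prop where
  hx : φ X ∈ O
  hW : (φ qW)⁻¹ ∉ O

/-- a unit of `O` -/
def U (O : ValuationSubring K) (z : K) : Prop := z ≠ 0 ∧ z ∈ O ∧ z⁻¹ ∈ O

lemma U.mul {O : ValuationSubring K} {z w : K} (h : U O z) (h' : U O w) : U O (z * w) :=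
  ⟨mul_ne_zero h.1 h'.1, O.mul_mem _ _ h.2.1 h'.2.1, by rw [mul_inv]; exact O.mul_mem _ _ h.2.2 h'.2.2⟩

lemma U.inv {O : ValuationSubring K} {z : K} (h : U O z) : U O z⁻¹ :=
  ⟨inv_ne_zero h.1, h.2.2, by rw [inv_inv]; exact h.2.1⟩

lemma U.div {O : ValuationSubring K} {z w : K} (h : U O z) (h' : U O w) : U O (z / w) := by
  rw [div_eq_mul_inv]
  exact h.mul h'.inv

lemma phi_ne_zero (h : Setup φ y) {P : (ZMod 3)[X]} (hP : P ≠ 0) : φ P ≠ 0 := by
  intro h0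
  exact hP (h.inj (by rw [h0, map_zero]))

lemma above_unit (h : Setup φ y) {O : ValuationSubring K} (hO : Above φ O) {P : (ZMod 3)[X]}
    (hP : ¬ qW ∣ P) : U O (φ P) := by
  have hP0 : P ≠ 0 := fun h0 => hP (h0 ▸ dvd_zero _)
  have hφ := phi_ne_zero h hP0
  refine ⟨hφ, phi_mem O hO.hx P, ?_⟩
  obtain ⟨v, u, huv⟩ := (irreducible_qW.coprime_iff_not_dvd).mpr hP
  have h1 := congrArg φ huv
  rw [map_add, map_mul, map_mul, map_one] at h1
  have h2 : φ u * φ P = 1 + φ qW * (- φ v) := by linear_combination h1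
  obtain ⟨h3, h4⟩ := unit_add O hO.hW (O.neg_mem _ (phi_mem O hO.hx v))
  have h5 : (φ P)⁻¹ = φ u * (1 + φ qW * (- φ v))⁻¹ := by
    rw [← h2, mul_inv]
    have h6 : φ u ≠ 0 := by
      intro h7
      rw [h7, zero_mul] at h2
      exact h3 h2.symm
    field_simp
  rw [h5]
  exact O.mul_mem _ _ (phi_mem O hO.hx u) h4

lemma y_mem_above (h : Setup φ y) {O : ValuationSubring K} (hO : Above φ O) : y ∈ O := by
  have h1 := above_unit h hO not_dvd_qB
  have h2 : y = (φ qB)⁻¹ * (φ qB * y) := by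
    rw [← mul_assoc, inv_mul_cancel₀ h1.1, one_mul]
  rw [h2]
  exact O.mul_mem _ _ h1.2.2 (Y_mem h O hO.hx)

/-- the reduction map from the polynomial ring -/
noncomputable def red (O : ValuationSubring K) (hx : φ X ∈ O) : (ZMod 3)[X] →+* IsLocalRing.ResidueField O :=
  (IsLocalRing.residue O).comp (φ.codRestrict O.toSubring (fun P => phi_mem O hx P))

lemma residue_eq_zero (O : ValuationSubring K) {z : K} (hz : z ∈ O) :
    IsLocalRing.residue O ⟨z, hz⟩ = 0 ↔ z = 0 ∨ z⁻¹ ∉ O := by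
  rw [IsLocalRing.residue_eq_zero_iff, IsLocalRing.mem_maximalIdeal, mem_nonunits_iff]
  constructor
  · intro hu
    by_contra hcon
    push Not at hcon
    exact hu (isUnit_iff_exists_inv.mpr ⟨⟨z⁻¹, hcon.2⟩, Subtype.ext (mul_inv_cancel₀ hcon.1)⟩)
  · rintro h hu
    obtain ⟨w, hw⟩ := isUnit_iff_exists_inv.mp hu
    have h2 : z * (w : K) = 1 := congrArg Subtype.val hw
    have h3 : z ≠ 0 := left_ne_zero_of_mul_eq_one h2
    rcases h with h | h
    · exact h3 h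
    · apply h
      rw [← eq_inv_of_mul_eq_one_right h2]
      exact w.2

lemma red_qW {O : ValuationSubring K} (hO : Above φ O) : red O hO.hx qW = 0 := by
  change IsLocalRing.residue O ⟨φ qW, _⟩ = 0
  rw [residue_eq_zero]
  exact Or.inr hO.hW

lemma red_rel (h : Setup φ y) {O : ValuationSubring K} (hO : Above φ O) :
    red O hO.hx qB * ((IsLocalRing.residue O ⟨y, y_mem_above h hO⟩) ^ 3 -
      IsLocalRing.residue O ⟨y, y_mem_above h hO⟩) = red O hO.hx qA := by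
  have h1 : (⟨φ qB, phi_mem O hO.hx qB⟩ : O) * ((⟨y, y_mem_above h hO⟩ : O) ^ 3 - ⟨y, y_mem_above h hO⟩) =
      ⟨φ qA, phi_mem O hO.hx qA⟩ := Subtype.ext h.rel
  have h2 := congrArg (IsLocalRing.residue O) h1
  rw [map_mul, map_sub, map_pow] at h2
  exact h2

lemma comb_mem (h : Setup φ y) {O : ValuationSubring K} (hO : Above φ O) (P0 P1 P2 : (ZMod 3)[X]) :
    φ P0 + φ P1 * y + φ P2 * y ^ 2 ∈ O := by
  have hy := y_mem_above h hO
  have hP := phi_mem O hO.hx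
  exact O.add_mem _ _ (O.add_mem _ _ (hP P0) (O.mul_mem _ _ (hP P1) hy)) (O.mul_mem _ _ (hP P2) (pow_mem hy 2))

lemma residue_comb (h : Setup φ y) {O : ValuationSubring K} (hO : Above φ O) (P0 P1 P2 : (ZMod 3)[X]) :
    IsLocalRing.residue O ⟨_, comb_mem h hO P0 P1 P2⟩ =
      red O hO.hx P0 + red O hO.hx P1 * IsLocalRing.residue O ⟨y, y_mem_above h hO⟩ +
        red O hO.hx P2 * IsLocalRing.residue O ⟨y, y_mem_above h hO⟩ ^ 2 := by
  have h1 : (⟨_, comb_mem h hO P0 P1 P2⟩ : O) = ⟨φ P0, phi_mem O hO.hx P0⟩ +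
      ⟨φ P1, phi_mem O hO.hx P1⟩ * ⟨y, y_mem_above h hO⟩ +
      ⟨φ P2, phi_mem O hO.hx P2⟩ * ⟨y, y_mem_above h hO⟩ ^ 2 := Subtype.ext rfl
  rw [h1, map_add, map_add, map_mul, map_mul, map_pow]
  rfl

lemma comb_unit (h : Setup φ y) {O : ValuationSubring K} (hO : Above φ O) {P0 P1 P2 : (ZMod 3)[X]}
    (hP : ¬ (qW ∣ P0 ∧ qW ∣ P1 ∧ qW ∣ P2)) : U O (φ P0 + φ P1 * y + φ P2 * y ^ 2) := by
  by_contra hcon
  have hmem := comb_mem h hO P0 P1 P2
  have h1 : IsLocalRing.residue O ⟨_, hmem⟩ = 0 := by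
    rw [residue_eq_zero]
    by_contra h2
    push Not at h2
    exact hcon ⟨h2.1, hmem, h2.2⟩
  rw [residue_comb h hO] at h1
  obtain ⟨h2, h3, h4⟩ := resid_indep (red O hO.hx) _ (red_qW hO) (red_rel h hO) _ _ _ h1
  apply hP
  refine ⟨?_, ?_, ?_⟩
  · by_contra h5
    exact psi_ne_zero (red O hO.hx) (red_qW hO) h5 h2
  · by_contra h5
    exact psi_ne_zero (red O hO.hx) (red_qW hO) h5 h3
  · by_contra h5
    exact psi_ne_zero (red O hO.hx) (red_qW hO) h5 h4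

lemma prime_qW : Prime qW := irreducible_qW.prime

lemma poly_split {d : (ZMod 3)[X]} (hd : d ≠ 0) : ∃ (k : ℕ) (d' : (ZMod 3)[X]), ¬ qW ∣ d' ∧ d = qW ^ k * d' := by
  have hf : FiniteMultiplicity qW d := FiniteMultiplicity.of_not_isUnit irreducible_qW.not_isUnit hd
  obtain ⟨c, h1, h2⟩ := hf.exists_eq_pow_mul_and_not_dvd
  exact ⟨_, c, h2, h1⟩

lemma triple_split (n : ℕ) : ∀ P0 P1 P2 : (ZMod 3)[X], (P0 ≠ 0 ∧ P0.natDegree ≤ n ∨ P1 ≠ 0 ∧ P1.natDegree ≤ n ∨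
    P2 ≠ 0 ∧ P2.natDegree ≤ n) → ∃ (k : ℕ) (Q0 Q1 Q2 : (ZMod 3)[X]), ¬ (qW ∣ Q0 ∧ qW ∣ Q1 ∧ qW ∣ Q2) ∧
      P0 = qW ^ k * Q0 ∧ P1 = qW ^ k * Q1 ∧ P2 = qW ^ k * Q2 := by
  induction n with
  | zero =>
    intro P0 P1 P2 h
    refine ⟨0, P0, P1, P2, ?_, by simp, by simp, by simp⟩
    rintro ⟨h0, h1, h2⟩
    have key : ∀ P : (ZMod 3)[X], P ≠ 0 ∧ P.natDegree ≤ 0 → qW ∣ P → False := by
      rintro P ⟨hP, hP'⟩ hd
      have := natDegree_le_of_dvd hd hP
      rw [natDegree_qW] at this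
      omega
    rcases h with h | h | h
    · exact key _ h h0
    · exact key _ h h1
    · exact key _ h h2
  | succ n ih =>
    intro P0 P1 P2 h
    by_cases hd : qW ∣ P0 ∧ qW ∣ P1 ∧ qW ∣ P2
    · obtain ⟨⟨R0, rfl⟩, ⟨R1, rfl⟩, ⟨R2, rfl⟩⟩ := hd
      have key : ∀ R : (ZMod 3)[X], qW * R ≠ 0 ∧ (qW * R).natDegree ≤ n + 1 → R ≠ 0 ∧ R.natDegree ≤ n := by
        rintro R ⟨h1, h2⟩
        have hR : R ≠ 0 := right_ne_zero_of_mul h1
        rw [natDegree_mul qW_ne_zero hR, natDegree_qW] at h2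
        exact ⟨hR, by omega⟩
      obtain ⟨k, Q0, Q1, Q2, h1, h2, h3, h4⟩ := ih R0 R1 R2 (by
        rcases h with h | h | h
        · exact Or.inl (key _ h)
        · exact Or.inr (Or.inl (key _ h))
        · exact Or.inr (Or.inr (key _ h)))
      refine ⟨k + 1, Q0, Q1, Q2, h1, ?_, ?_, ?_⟩
      · rw [h2]; ring
      · rw [h3]; ring
      · rw [h4]; ring
    · exact ⟨0, P0, P1, P2, hd, by simp, by simp, by simp⟩

/-- normal form of a nonzero element -/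
lemma normal_form (h : Setup φ y) {z : K} (hz : z ≠ 0) : ∃ (m : ℤ) (Q0 Q1 Q2 d : (ZMod 3)[X]),
    ¬ qW ∣ d ∧ ¬ (qW ∣ Q0 ∧ qW ∣ Q1 ∧ qW ∣ Q2) ∧
      z * φ qW ^ m = (φ Q0 + φ Q1 * y + φ Q2 * y ^ 2) / φ d := by
  obtain ⟨d, P0, P1, P2, hd, hz2⟩ := h.span z
  obtain ⟨k, d', hd', rfl⟩ := poly_split hd
  have hne : P0 ≠ 0 ∨ P1 ≠ 0 ∨ P2 ≠ 0 := by
    by_contra hcon
    push Not at hcon
    rw [hcon.1, hcon.2.1, hcon.2.2, map_zero] at hz2
    have h1 : z * φ (qW ^ k * d') = 0 := by rw [hz2]; ring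
    rcases mul_eq_zero.mp h1 with h2 | h2
    · exact hz h2
    · exact phi_ne_zero h hd h2
  obtain ⟨j, Q0, Q1, Q2, h1, rfl, rfl, rfl⟩ := triple_split (max P0.natDegree (max P1.natDegree P2.natDegree)) P0 P1 P2 (by
    rcases hne with h1 | h1 | h1
    · exact Or.inl ⟨h1, le_max_left _ _⟩
    · exact Or.inr (Or.inl ⟨h1, le_trans (le_max_left _ _) (le_max_right _ _)⟩)
    · exact Or.inr (Or.inr ⟨h1, le_trans (le_max_right _ _) (le_max_right _ _)⟩))
  have hW0 : φ qW ≠ 0 := phi_ne_zero h qW_ne_zero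
  have hd0 : φ d' ≠ 0 := phi_ne_zero h (fun h0 => hd' (h0 ▸ dvd_zero _))
  refine ⟨(k : ℤ) - j, Q0, Q1, Q2, d', hd', h1, ?_⟩
  rw [eq_div_iff hd0, zpow_sub₀ hW0, zpow_natCast, zpow_natCast]
  simp only [map_mul, map_pow] at hz2
  field_simp
  linear_combination hz2

lemma unit_form (h : Setup φ y) {z : K} (hz : z ≠ 0) : ∃ n : ℤ, ∀ O : ValuationSubring K, Above φ O →
    U O (z * φ qW ^ n) := by
  obtain ⟨m, Q0, Q1, Q2, d, hd, hQ, hz2⟩ := normal_form h hz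
  refine ⟨m, fun O hO => ?_⟩
  rw [hz2]
  exact (comb_unit h hO hQ).div (above_unit h hO hd)

lemma above_unique (h : Setup φ y) {O O' : ValuationSubring K} (hO : Above φ O) (hO' : Above φ O') :
    O = O' := by
  have hW0 : φ qW ≠ 0 := phi_ne_zero h qW_ne_zero
  have key : ∀ {O O' : ValuationSubring K}, Above φ O → Above φ O' → ∀ z ∈ O, z ∈ O' := by
    intro O O' hO hO' z hz
    rcases eq_or_ne z 0 with rfl | hz0
    · exact O'.zero_mem
    obtain ⟨n, hn⟩ := unit_form h hz0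
    have h1 := hn O hO
    have h2 := hn O' hO'
    have h3 : φ qW ^ n ∈ O → 0 ≤ n := pow_unit_aux O (φ qW) (phi_mem O hO.hx _) hO.hW n
    have h4 : n ≤ 0 := by
      have h5 : φ qW ^ (-n) ∈ O := by
        have h6 : φ qW ^ (-n) = z * (z * φ qW ^ n)⁻¹ := by
          rw [zpow_neg, mul_inv]
          field_simp
        rw [h6]
        exact O.mul_mem _ _ hz h1.2.2
      have := pow_unit_aux O (φ qW) (phi_mem O hO.hx _) hO.hW _ h5
      omega
    have h7 : z = (z * φ qW ^ n) * φ qW ^ (-n) := by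
      rw [mul_assoc, ← zpow_add₀ hW0]
      simp
    rw [h7]
    refine O'.mul_mem _ _ h2.2.1 ?_
    obtain ⟨k, hk⟩ : ∃ k : ℕ, -n = (k : ℤ) := ⟨(-n).toNat, by omega⟩
    rw [hk, zpow_natCast]
    exact pow_mem (phi_mem O' hO'.hx _) k
  ext z
  exact ⟨key hO hO' z, key hO' hO z⟩

lemma exists_above (h : Setup φ y) : ∃ O : ValuationSubring K, Above φ O := by
  let A : Subring K := φ.range
  let w : A := ⟨φ qW, qW, rfl⟩
  have hI : Ideal.span {w} ≠ ⊤ := by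
    intro htop
    rw [Ideal.eq_top_iff_one, Ideal.mem_span_singleton] at htop
    obtain ⟨⟨_, P, rfl⟩, hP⟩ := htop
    have h1 : φ (qW * P) = φ 1 := by
      rw [map_mul, map_one]
      exact (congrArg Subtype.val hP).symm
    have h2 : qW ∣ 1 := ⟨P, (h.inj h1).symm⟩
    exact irreducible_qW.not_isUnit (isUnit_of_dvd_one h2)
  obtain ⟨O, h1, h2⟩ := Ideal.image_subset_nonunits_valuationSubring _ hI
  refine ⟨O, ⟨h1 ⟨X, rfl⟩, ?_⟩⟩
  have h3 : φ qW ∈ O.nonunits := h2 ⟨w, Ideal.subset_span rfl, rfl⟩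
  rw [ValuationSubring.mem_nonunits_iff] at h3
  rw [← ValuationSubring.valuation_le_one_iff, map_inv₀, not_le]
  have h4 : O.valuation (φ qW) ≠ 0 := (Valuation.ne_zero_iff _).mpr (phi_ne_zero h qW_ne_zero)
  exact (one_lt_inv₀ (zero_lt_iff.mpr h4)).mpr h3

lemma finite_residue (h : Setup φ y) {O : ValuationSubring K} (hO : Above φ O) :
    Finite (IsLocalRing.ResidueField O) := by
  classical
  have hW0 : φ qW ≠ 0 := phi_ne_zero h qW_ne_zero
  have key : ∀ u : IsLocalRing.ResidueField O, u ^ (3 ^ 15) = u := by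
    intro u
    obtain ⟨⟨z, hz⟩, rfl⟩ := IsLocalRing.residue_surjective u
    by_cases hr : IsLocalRing.residue O ⟨z, hz⟩ = 0
    · rw [hr, zero_pow (by positivity)]
    have hz0 : z ≠ 0 ∧ z⁻¹ ∈ O := by
      rw [residue_eq_zero] at hr
      push Not at hr
      exact hr
    obtain ⟨m, Q0, Q1, Q2, d, hd, hQ, hz2⟩ := normal_form h hz0.1
    have hu : U O (z * φ qW ^ m) := by
      rw [hz2]
      exact (comb_unit h hO hQ).div (above_unit h hO hd)
    have hzu : U O z := ⟨hz0.1, hz, hz0.2⟩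
    have hm : m = 0 := by
      have h1 : U O (φ qW ^ m) := by
        have : φ qW ^ m = (z * φ qW ^ m) / z := by
          rw [mul_comm, mul_div_assoc, div_self hz0.1, mul_one]
        rw [this]
        exact hu.div hzu
      have h2 := pow_unit_aux O (φ qW) (phi_mem O hO.hx _) hO.hW m h1.2.1
      have h3 := pow_unit_aux O (φ qW) (phi_mem O hO.hx _) hO.hW (-m) (by rw [zpow_neg]; exact h1.2.2)
      omega
    rw [hm, zpow_zero, mul_one] at hz2
    apply resid_frob (red O hO.hx) _ (red_qW hO) (red_rel h hO) Q0 Q1 Q2 d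
    have hd1 := psi_ne_zero (red O hO.hx) (red_qW hO) hd
    rw [eq_div_iff hd1, ← residue_comb h hO]
    have h5 : (⟨z, hz⟩ : O) * ⟨φ d, phi_mem O hO.hx d⟩ = ⟨_, comb_mem h hO Q0 Q1 Q2⟩ := by
      apply Subtype.ext
      change z * φ d = _
      rw [hz2, div_mul_cancel₀]
      exact (above_unit h hO hd).1
    rw [← h5, map_mul]
    rfl
  have hpoly : (X ^ (3 ^ 15) - X : (IsLocalRing.ResidueField O)[X]) ≠ 0 := by
    intro h0
    have h1 := congrArg (fun p : (IsLocalRing.ResidueField O)[X] => p.coeff 1) h0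
    simp only [coeff_sub, coeff_X_pow, coeff_X_one, coeff_zero] at h1
    norm_num at h1
  apply Set.finite_univ_iff.mp
  refine ((X ^ (3 ^ 15) - X : (IsLocalRing.ResidueField O)[X]).roots.toFinset.finite_toSet).subset ?_
  intro u _
  rw [Finset.mem_coe, Multiset.mem_toFinset, mem_roots hpoly, IsRoot.def, eval_sub, eval_pow, eval_X, key, sub_self]

end Pool.Agent.MP_b811f7_nt
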