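import Pool.Agent.MP_b811f7_nt.Space

set_option autoImplicit false

namespace Pool.Agent.MP_b811f7_nt

open Polynomial

abbrev LL : Type := RatFunc (ZMod 3)

noncomputable def fL : LL := algebraMap (ZMod 3)[X] LL qA / algebraMap (ZMod 3)[X] LL qB

noncomputable def gL : LL[X] := X ^ 3 - X - C fL

lemma qB_not_dvd (c : ZMod 3) : ¬ qB ∣ qA + C c * qB := by
  intro h
  have h1 : qB ∣ qA - qB := by
    have h2 : qA - qB = (qA + C c * qB) - (C c + 1) * qB := by ring
    rw [h2]
    exact dvd_sub h (dvd_mul_left _ _)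
  have h3 : qA - qB = 2 * X ^ 2 - 2 * X := by rw [qA, qB]; ring
  have h4 : (2 * X ^ 2 - 2 * X : (ZMod 3)[X]).natDegree ≤ 2 := by compute_degree
  have h5 : (2 * X ^ 2 - 2 * X : (ZMod 3)[X]) ≠ 0 := by
    intro h6
    have := congrArg (fun p : (ZMod 3)[X] => p.coeff 1) h6
    have h2 : (2 : (ZMod 3)[X]) = C 2 := rfl
    simp [h2, coeff_X_pow, coeff_C_mul] at this
    revert this
    decide
  rw [h3] at h1
  have := natDegree_le_of_dvd h1 h5
  rw [natDegree_qB] at this
  omega

/-- the element `f + c` is not of the form `r ^ 3 - r` -/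
lemma no_root (c : ZMod 3) (r : LL) : r ^ 3 - r ≠ fL + algebraMap (ZMod 3)[X] LL (C c) := by
  intro h
  have hinj : Function.Injective (algebraMap (ZMod 3)[X] LL) := IsFractionRing.injective _ _
  set s := r.num with hs
  set t := r.denom with ht
  have ht0 : t ≠ 0 := r.denom_ne_zero
  have hcop : IsCoprime s t := r.isCoprime_num_denom
  have hr : r = algebraMap _ LL s / algebraMap _ LL t := (RatFunc.num_div_denom r).symm
  have htL : algebraMap _ LL t ≠ 0 := by
    intro h0
    exact ht0 (hinj (by rw [h0, map_zero]))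
  have hBL : algebraMap _ LL qB ≠ 0 := by
    intro h0
    exact qB_ne_zero (hinj (by rw [h0, map_zero]))
  have h1 : qB * (s * (s ^ 2 - t ^ 2)) = (qA + C c * qB) * t ^ 3 := by
    apply hinj
    rw [hr, fL] at h
    simp only [map_mul, map_sub, map_add, map_pow]
    field_simp at h
    linear_combination h
  have hcop2 : IsCoprime (t ^ 3) (s * (s ^ 2 - t ^ 2)) := by
    apply IsCoprime.pow_left
    apply IsCoprime.mul_right hcop.symm
    have h2 : IsCoprime t (s ^ 2) := hcop.symm.pow_right
    have h3 : s ^ 2 - t ^ 2 = s ^ 2 + t * (-t) := by ring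
    rw [h3]
    exact h2.add_mul_left_right _
  have hdvd : t ^ 3 ∣ qB := by
    apply hcop2.dvd_of_dvd_mul_right
    rw [h1]
    exact dvd_mul_left _ _
  have hdeg : t.natDegree = 0 := by
    have h2 := natDegree_le_of_dvd hdvd qB_ne_zero
    rw [natDegree_pow, natDegree_qB] at h2
    by_contra h3
    have h4 : t.natDegree = 1 := by omega
    obtain ⟨ρ, hρ⟩ := exists_root_of_degree_eq_one (p := t) (by
      rw [degree_eq_natDegree ht0, h4]; rfl)
    have h5 : qB.eval ρ = 0 := by
      obtain ⟨m, hm⟩ := hdvd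
      rw [hm, eval_mul, eval_pow, hρ.eq_zero]
      ring
    rw [eval_qB] at h5
    exact one_ne_zero h5
  have hunit : IsUnit (t ^ 3) := by
    apply IsUnit.pow
    rw [Polynomial.isUnit_iff_degree_eq_zero, degree_eq_natDegree ht0, hdeg]
    rfl
  apply qB_not_dvd c
  have h2 : qB ∣ (qA + C c * qB) * t ^ 3 := ⟨_, h1.symm⟩
  exact (hunit.dvd_mul_right).mp h2

lemma natDegree_gL : gL.natDegree = 3 := by unfold gL; compute_degree!
lemma monic_gL : gL.Monic := by unfold gL; monicity!

instance irreducible_gL : Fact (Irreducible gL) := by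
  constructor
  apply irreducible_of_degree_le_three_of_not_isRoot
  · rw [natDegree_gL]; decide
  · intro r hr
    have h : r ^ 3 - r - fL = 0 := by
      have := hr.eq_zero
      simpa [gL] using this
    apply no_root 0 r
    rw [map_zero, map_zero, add_zero]
    linear_combination h

abbrev KK : Type := AdjoinRoot gL

noncomputable def yK : KK := AdjoinRoot.root gL

noncomputable def phiKK : (ZMod 3)[X] →+* KK := (algebraMap LL KK).comp (algebraMap (ZMod 3)[X] LL)

lemma yK_rel : yK ^ 3 - yK = algebraMap LL KK fL := by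
  have h : eval₂ (AdjoinRoot.of gL) (AdjoinRoot.root gL) (X ^ 3 - X - C fL) = 0 :=
    AdjoinRoot.eval₂_root gL
  rw [eval₂_sub, eval₂_sub, eval₂_pow, eval₂_X, eval₂_C] at h
  have h2 : yK ^ 3 - yK - algebraMap LL KK fL = 0 := h
  linear_combination h2

lemma exists_coords (z : KK) : ∃ p0 p1 p2 : LL, z = algebraMap LL KK p0 + algebraMap LL KK p1 * yK +
    algebraMap LL KK p2 * yK ^ 2 := by
  obtain ⟨p, rfl⟩ := AdjoinRoot.mk_surjective z
  have h1 : AdjoinRoot.mk gL p = AdjoinRoot.mk gL (p %ₘ gL) := by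
    conv_lhs => rw [← modByMonic_add_div p gL]
    rw [map_add, map_mul, AdjoinRoot.mk_self, zero_mul, add_zero]
  set q := p %ₘ gL with hq
  have hdeg : q.natDegree < 3 := by
    have := natDegree_modByMonic_lt p monic_gL (by
      intro h
      have := congrArg natDegree h
      rw [natDegree_gL, natDegree_one] at this
      omega)
    rwa [natDegree_gL] at this
  refine ⟨q.coeff 0, q.coeff 1, q.coeff 2, ?_⟩
  rw [h1, q.as_sum_range' 3 hdeg]
  simp only [Finset.sum_range_succ, Finset.sum_range_zero, zero_add, map_add]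
  simp only [← C_mul_X_pow_eq_monomial, map_mul, map_pow, AdjoinRoot.mk_X]
  simp
  rfl

lemma setupKK : Setup phiKK yK := by
  have hinj : Function.Injective (algebraMap (ZMod 3)[X] LL) := IsFractionRing.injective _ _
  have hne : ∀ p : (ZMod 3)[X], p ≠ 0 → algebraMap (ZMod 3)[X] LL p ≠ 0 := by
    intro p hp h0
    exact hp (hinj (by rw [h0, map_zero]))
  refine ⟨(algebraMap LL KK).injective.comp hinj, ?_, ?_⟩
  · rw [yK_rel]
    change algebraMap LL KK _ * algebraMap LL KK _ = algebraMap LL KK _
    rw [← map_mul, fL, mul_div_cancel₀ _ (hne _ qB_ne_zero)]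
  · intro z
    obtain ⟨p0, p1, p2, rfl⟩ := exists_coords z
    have h0 := hne _ p0.denom_ne_zero
    have h1 := hne _ p1.denom_ne_zero
    have h2 := hne _ p2.denom_ne_zero
    have e : ∀ p : LL, p * algebraMap _ LL p.denom = algebraMap _ LL p.num := by
      intro p
      have h := RatFunc.num_div_denom p
      rw [div_eq_iff (hne _ p.denom_ne_zero)] at h
      exact h.symm
    refine ⟨p0.denom * p1.denom * p2.denom, p0.num * (p1.denom * p2.denom), p1.num * (p0.denom * p2.denom),
      p2.num * (p0.denom * p1.denom), mul_ne_zero (mul_ne_zero p0.denom_ne_zero p1.denom_ne_zero) p2.denom_ne_zero, ?_⟩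
    have e0 : p0 * algebraMap _ LL (p0.denom * p1.denom * p2.denom) =
        algebraMap _ LL (p0.num * (p1.denom * p2.denom)) := by
      simp only [map_mul]
      linear_combination (algebraMap _ LL p1.denom * algebraMap _ LL p2.denom) * e p0
    have e1 : p1 * algebraMap _ LL (p0.denom * p1.denom * p2.denom) =
        algebraMap _ LL (p1.num * (p0.denom * p2.denom)) := by
      simp only [map_mul]
      linear_combination (algebraMap _ LL p0.denom * algebraMap _ LL p2.denom) * e p1
    have e2 : p2 * algebraMap _ LL (p0.denom * p1.denom * p2.denom) =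
        algebraMap _ LL (p2.num * (p0.denom * p1.denom)) := by
      simp only [map_mul]
      linear_combination (algebraMap _ LL p0.denom * algebraMap _ LL p1.denom) * e p2
    change (_ + _ + _) * algebraMap LL KK _ = algebraMap LL KK _ + algebraMap LL KK _ * yK + algebraMap LL KK _ * yK ^ 2
    rw [← e0, ← e1, ← e2]
    simp only [map_mul]
    ring


/-- an algebraic element of the rational function field is constant -/
lemma const_LL (r : LL) (hr : IsAlgebraic (ZMod 3) (algebraMap LL KK r)) : ∃ c : ZMod 3, r = algebraMap (ZMod 3)[X] LL (C c) := by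
  have h1 : IsAlgebraic (ZMod 3) r := by
    rwa [isAlgebraic_algebraMap_iff (algebraMap LL KK).injective] at hr
  by_contra h2
  apply RatFunc.transcendental_of_ne_C r _ h1
  rintro ⟨c, hc⟩
  apply h2
  exact ⟨c, hc⟩

noncomputable def sig : KK →ₐ[LL] KK := AdjoinRoot.liftAlgHom gL (Algebra.ofId LL KK) (yK + 1) (by
  have h3 : (3 : KK) = 0 := three_K phiKK
  have h : eval₂ (algebraMap LL KK) (yK + 1) (X ^ 3 - X - C fL) = 0 := by
    rw [eval₂_sub, eval₂_sub, eval₂_pow, eval₂_X, eval₂_C]
    linear_combination yK_rel + (yK ^ 2 + yK) * h3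
  exact h)

lemma sig_y : sig yK = yK + 1 := AdjoinRoot.liftAlgHom_root _ _ _ _

lemma sig_L (p : LL) : sig (algebraMap LL KK p) = algebraMap LL KK p := sig.commutes p

lemma sig_alg {z : KK} (hz : IsAlgebraic (ZMod 3) z) : IsAlgebraic (ZMod 3) (sig z) := by
  have := (isAlgebraic_algHom_iff (R := ZMod 3) (sig.restrictScalars (ZMod 3)) (sig.restrictScalars (ZMod 3)).injective (a := z)).mpr hz
  exact this

lemma const_phi (c : ZMod 3) : algebraMap LL KK (algebraMap (ZMod 3)[X] LL (C c)) = algebraMap (ZMod 3) KK c := by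
  have : ∀ f g : ZMod 3 →+* KK, f = g := fun f g => Subsingleton.elim _ _
  exact congrArg (fun f : ZMod 3 →+* KK => f c)
    (this ((algebraMap LL KK).comp ((algebraMap (ZMod 3)[X] LL).comp C)) (algebraMap (ZMod 3) KK))

/-- no element `y + r` is algebraic -/
lemma not_alg_y (r : LL) : ¬ IsAlgebraic (ZMod 3) (yK + algebraMap LL KK r) := by
  intro h
  have h3 : (3 : KK) = 0 := three_K phiKK
  have h1 : IsAlgebraic (ZMod 3) (algebraMap LL KK (fL + r ^ 3 - r)) := by
    have h2 : algebraMap LL KK (fL + r ^ 3 - r) = (yK + algebraMap LL KK r) ^ 3 - (yK + algebraMap LL KK r) := by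
      rw [map_sub, map_add, map_pow, ← yK_rel]
      linear_combination (-(yK ^ 2 * algebraMap LL KK r + yK * algebraMap LL KK r ^ 2)) * h3
    rw [h2]
    exact (h.pow 3).sub h
  obtain ⟨c, hc⟩ := const_LL _ h1
  apply no_root (-c) (-r)
  rw [map_neg, map_neg, ← hc]
  ring

lemma full_KK (z : KK) (hz : IsAlgebraic (ZMod 3) z) : ∃ c : ZMod 3, algebraMap (ZMod 3) KK c = z := by
  have h3 : (3 : KK) = 0 := three_K phiKK
  obtain ⟨p0, p1, p2, rfl⟩ := exists_coords z
  set a0 := algebraMap LL KK p0 with ha0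
  set a1 := algebraMap LL KK p1 with ha1
  set a2 := algebraMap LL KK p2 with ha2
  have s0 : sig a0 = a0 := sig_L p0
  have s1 : sig a1 = a1 := sig_L p1
  have s2 : sig a2 = a2 := sig_L p2
  have h1 : IsAlgebraic (ZMod 3) (a1 + a2 * (2 * yK + 1)) := by
    have := (sig_alg hz).sub hz
    rw [map_add, map_add, map_mul, map_mul, map_pow, sig_y, s0, s1, s2] at this
    have e : a1 + a2 * (2 * yK + 1) = a0 + a1 * (yK + 1) + a2 * (yK + 1) ^ 2 - (a0 + a1 * yK + a2 * yK ^ 2) := by
      ring
    rw [e]
    exact this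
  have h2 : IsAlgebraic (ZMod 3) (2 * a2) := by
    have := (sig_alg h1).sub h1
    rw [map_add, map_mul, map_add, map_mul, map_one, map_ofNat, sig_y, s1, s2] at this
    have e : 2 * a2 = a1 + a2 * (2 * (yK + 1) + 1) - (a1 + a2 * (2 * yK + 1)) := by ring
    rw [e]
    exact this
  have h2' : IsAlgebraic (ZMod 3) (algebraMap LL KK p2) := by
    have h4 : algebraMap LL KK p2 = 2 * (2 * a2) := by linear_combination (-a2) * h3
    rw [h4]
    have h5 : IsAlgebraic (ZMod 3) (2 : KK) := by
      have : (2 : KK) = algebraMap (ZMod 3) KK 2 := by rw [map_ofNat]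
      rw [this]
      exact isAlgebraic_algebraMap 2
    exact h5.mul h2
  obtain ⟨c2, hc2⟩ := const_LL _ h2'
  by_cases hc20 : c2 = 0
  · have e2 : a2 = 0 := by rw [ha2, hc2, hc20, map_zero, map_zero, map_zero]
    rw [e2, zero_mul, add_zero] at h1
    obtain ⟨c1, hc1⟩ := const_LL _ h1
    by_cases hc10 : c1 = 0
    · have e1 : a1 = 0 := by rw [ha1, hc1, hc10, map_zero, map_zero, map_zero]
      rw [e2, e1, zero_mul, zero_mul, add_zero, add_zero] at hz
      obtain ⟨c0, hc0⟩ := const_LL _ hz
      refine ⟨c0, ?_⟩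
      rw [e2, e1, ha0, hc0, const_phi]
      ring
    · exfalso
      have e1 : a1 = algebraMap (ZMod 3) KK c1 := by rw [ha1, hc1, const_phi]
      have hne : a1 ≠ 0 := by
        rw [e1]
        exact (_root_.map_ne_zero _).mpr hc10
      apply not_alg_y (p0 / p1)
      have e3 : yK + algebraMap LL KK (p0 / p1) = a1⁻¹ * (a0 + a1 * yK + a2 * yK ^ 2) := by
        rw [map_div₀, ← ha0, ← ha1, e2]
        field_simp
        ring
      rw [e3]
      refine IsAlgebraic.mul ?_ hz
      exact h1.inv
  · exfalso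
    have e2 : a2 = algebraMap (ZMod 3) KK c2 := by rw [ha2, hc2, const_phi]
    have hne : a2 ≠ 0 := by
      rw [e2]
      exact (_root_.map_ne_zero _).mpr hc20
    have hne2 : (2 : KK) * a2 ≠ 0 := by
      intro h0
      apply hne
      linear_combination a2 * h3 - h0
    have h20 : (2 : KK) ≠ 0 := left_ne_zero_of_mul hne2
    apply not_alg_y ((p1 + p2) / (2 * p2))
    have e3 : yK + algebraMap LL KK ((p1 + p2) / (2 * p2)) = (2 * a2)⁻¹ * (a1 + a2 * (2 * yK + 1)) := by
      rw [map_div₀, map_add, map_mul, map_ofNat, ← ha1, ← ha2]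
      field_simp
      ring
    rw [e3]
    exact (h2.inv).mul h1

lemma finite_over_KK : ∃ t : KK, Transcendental (ZMod 3) t ∧
    FiniteDimensional (IntermediateField.adjoin (ZMod 3) {t}) KK := by
  refine ⟨algebraMap LL KK RatFunc.X, ?_, ?_⟩
  · rw [transcendental_algebraMap_iff (algebraMap LL KK).injective]
    exact RatFunc.transcendental_X
  · set t := algebraMap LL KK RatFunc.X with ht
    have hmem : ∀ p : LL, algebraMap LL KK p ∈ IntermediateField.adjoin (ZMod 3) {t} := by
      intro p
      have h1 : p ∈ IntermediateField.adjoin (ZMod 3) {(RatFunc.X : LL)} := by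
        rw [RatFunc.adjoin_X]
        trivial
      have h2 : (IntermediateField.adjoin (ZMod 3) {(RatFunc.X : LL)}).map (IsScalarTower.toAlgHom (ZMod 3) LL KK) =
          IntermediateField.adjoin (ZMod 3) {t} := by
        rw [IntermediateField.adjoin_map, Set.image_singleton]
        rfl
      rw [← h2]
      exact ⟨p, h1, rfl⟩
    classical
    refine ⟨⟨{1, yK, yK ^ 2}, ?_⟩⟩
    have e : ((({1, yK, yK ^ 2} : Finset KK)) : Set KK) = ({1, yK, yK ^ 2} : Set KK) := by simp
    rw [e, Submodule.eq_top_iff']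
    intro z
    obtain ⟨p0, p1, p2, rfl⟩ := exists_coords z
    have key : ∀ (p : LL) (w : KK), w ∈ ({1, yK, yK ^ 2} : Set KK) →
        algebraMap LL KK p * w ∈ Submodule.span (IntermediateField.adjoin (ZMod 3) {t}) ({1, yK, yK ^ 2} : Set KK) := by
      intro p w hw
      have : algebraMap LL KK p * w = (⟨algebraMap LL KK p, hmem p⟩ : IntermediateField.adjoin (ZMod 3) {t}) • w := rfl
      rw [this]
      exact Submodule.smul_mem _ _ (Submodule.subset_span hw)
    have k0 := key p0 1 (by simp)
    have k1 := key p1 yK (by simp)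
    have k2 := key p2 (yK ^ 2) (by simp)
    rw [mul_one] at k0
    exact Submodule.add_mem _ (Submodule.add_mem _ k0 k1) k2

theorem function_field_KK : IsFunctionFieldOver (ZMod 3) KK := ⟨finite_over_KK, full_KK⟩

end Pool.Agent.MP_b811f7_nt
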