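import Pool.Agent.MP_b811f7_nt.Numeric

set_option autoImplicit false

namespace Pool.Agent.MP_b811f7_nt

open Polynomial

variable {K : Type*} [CommRing K]

/-- evaluation of a polynomial with natural number coefficients at `x` -/
noncomputable def ev (x : K) : ℕ[X] →+* K := Polynomial.eval₂RingHom (Nat.castRingHom K) x

lemma ev_X (x : K) : ev x X = x := by simp [ev]

def Rep (x Y Z : K) (t : Pk) (z : K) : Prop :=
  ∃ p q r : ℕ[X], p.eval bb = t.p ∧ q.eval bb = t.q ∧ r.eval bb = t.r ∧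
    p.eval 1 ≤ t.d ∧ q.eval 1 ≤ t.d ∧ r.eval 1 ≤ t.d ∧ z = ev x p + ev x q * Y + ev x r * Z

variable {x Y Z : K}

lemma Rep.add {s t : Pk} {z w : K} (h : Rep x Y Z s z) (h' : Rep x Y Z t w) :
    Rep x Y Z (s.add t) (z + w) := by
  obtain ⟨p, q, r, h1, h2, h3, h4, h5, h6, rfl⟩ := h
  obtain ⟨p', q', r', h1', h2', h3', h4', h5', h6', rfl⟩ := h'
  refine ⟨p + p', q + q', r + r', ?_, ?_, ?_, ?_, ?_, ?_, ?_⟩
  · rw [eval_add, h1, h1']; rfl
  · rw [eval_add, h2, h2']; rfl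
  · rw [eval_add, h3, h3']; rfl
  · rw [eval_add]; exact Nat.add_le_add h4 h4'
  · rw [eval_add]; exact Nat.add_le_add h5 h5'
  · rw [eval_add]; exact Nat.add_le_add h6 h6'
  · rw [map_add, map_add, map_add]; ring

lemma Rep.smul {t : Pk} {w : K} (a : ℕ[X]) (k e : ℕ) (hk : a.eval bb = k) (he : a.eval 1 ≤ e)
    (h : Rep x Y Z t w) : Rep x Y Z (t.smul k e) (ev x a * w) := by
  obtain ⟨p, q, r, h1, h2, h3, h4, h5, h6, rfl⟩ := h
  refine ⟨a * p, a * q, a * r, ?_, ?_, ?_, ?_, ?_, ?_, ?_⟩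
  · rw [eval_mul, h1, hk]; rfl
  · rw [eval_mul, h2, hk]; rfl
  · rw [eval_mul, h3, hk]; rfl
  · rw [eval_mul]; exact Nat.mul_le_mul he h4
  · rw [eval_mul]; exact Nat.mul_le_mul he h5
  · rw [eval_mul]; exact Nat.mul_le_mul he h6
  · rw [map_mul, map_mul, map_mul]; ring

/-- the relations between `x`, `Y`, `Z` -/
structure Rel (x Y Z : K) : Prop where
  yy : Y * Y = (x ^ 3 + 2 * x + 1) * Z
  yz : Y * Z = (x ^ 3 + 2 * x + 1) * Y + (x ^ 3 + 2 * x ^ 2 + 1) * (x ^ 3 + 2 * x + 1)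
  zz : Z * Z = (x ^ 3 + 2 * x + 1) * Z + (x ^ 3 + 2 * x ^ 2 + 1) * Y

noncomputable def pA : ℕ[X] := X ^ 3 + 2 * X ^ 2 + 1
noncomputable def pB : ℕ[X] := X ^ 3 + 2 * X + 1
noncomputable def pW : ℕ[X] := X ^ 5 + 2 * X + 1

lemma ev_pA : ev x pA = x ^ 3 + 2 * x ^ 2 + 1 := by simp [pA, ev]
lemma ev_pB : ev x pB = x ^ 3 + 2 * x + 1 := by simp [pB, ev]
lemma ev_pW : ev x pW = x ^ 5 + 2 * x + 1 := by simp [pW, ev]
lemma eval_pA : pA.eval bb = nA := by simp [pA, nA]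
lemma eval_pB : pB.eval bb = nB := by simp [pB, nB]
lemma eval_pW : pW.eval bb = nW := by simp [pW, nW]
lemma eval_pA1 : pA.eval 1 = 4 := by simp [pA]
lemma eval_pB1 : pB.eval 1 = 4 := by simp [pB]
lemma eval_pW1 : pW.eval 1 = 4 := by simp [pW]

lemma Rep.mul (hR : Rel x Y Z) {s t : Pk} {z w : K} (h : Rep x Y Z s z) (h' : Rep x Y Z t w) :
    Rep x Y Z (s.mul t) (z * w) := by
  obtain ⟨p, q, r, h1, h2, h3, h4, h5, h6, rfl⟩ := h
  obtain ⟨p', q', r', h1', h2', h3', h4', h5', h6', rfl⟩ := h'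
  have k11 := Nat.mul_le_mul h4 h4'
  have k12 := Nat.mul_le_mul h4 h5'
  have k13 := Nat.mul_le_mul h4 h6'
  have k21 := Nat.mul_le_mul h5 h4'
  have k22 := Nat.mul_le_mul h5 h5'
  have k23 := Nat.mul_le_mul h5 h6'
  have k31 := Nat.mul_le_mul h6 h4'
  have k32 := Nat.mul_le_mul h6 h5'
  have k33 := Nat.mul_le_mul h6 h6'
  refine ⟨p * p' + (q * r' + r * q') * (pA * pB),
    p * q' + q * p' + (q * r' + r * q') * pB + (r * r') * pA,
    p * r' + r * p' + (q * q' + r * r') * pB, ?_, ?_, ?_, ?_, ?_, ?_, ?_⟩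
  · simp only [eval_add, eval_mul, h1, h2, h3, h1', h2', h3', eval_pA, eval_pB]; rfl
  · simp only [eval_add, eval_mul, h1, h2, h3, h1', h2', h3', eval_pA, eval_pB]; rfl
  · simp only [eval_add, eval_mul, h1, h2, h3, h1', h2', h3', eval_pA, eval_pB]; rfl
  · simp only [eval_add, eval_mul, eval_pA1, eval_pB1]
    change _ ≤ 33 * (s.d * t.d)
    omega
  · simp only [eval_add, eval_mul, eval_pA1, eval_pB1]
    change _ ≤ 33 * (s.d * t.d)
    omega
  · simp only [eval_add, eval_mul, eval_pA1, eval_pB1]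
    change _ ≤ 33 * (s.d * t.d)
    omega
  · simp only [map_add, map_mul, ev_pA, ev_pB]
    have e1 := hR.yy
    have e2 := hR.yz
    have e3 := hR.zz
    linear_combination (ev x q * ev x q') * e1 + (ev x q * ev x r' + ev x r * ev x q') * e2 +
      (ev x r * ev x r') * e3

/-! ### digits -/

lemma coeff_digit (b : ℕ) (i : ℕ) : ∀ p : ℕ[X], p.eval 1 < b → p.coeff i = p.eval b / b ^ i % b := by
  induction i with
  | zero =>
    intro p hp
    have h1 : p.eval b = b * p.divX.eval b + p.coeff 0 := by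
      conv_lhs => rw [← divX_mul_X_add p]
      simp [mul_comm]
    have h2 : p.eval 1 = p.divX.eval 1 + p.coeff 0 := by
      conv_lhs => rw [← divX_mul_X_add p]
      simp
    rw [pow_zero, Nat.div_one, h1, Nat.mul_add_mod, Nat.mod_eq_of_lt]
    omega
  | succ i ih =>
    intro p hp
    have h1 : p.eval b = b * p.divX.eval b + p.coeff 0 := by
      conv_lhs => rw [← divX_mul_X_add p]
      simp [mul_comm]
    have h2 : p.eval 1 = p.divX.eval 1 + p.coeff 0 := by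
      conv_lhs => rw [← divX_mul_X_add p]
      simp
    have h3 : p.coeff (i + 1) = p.divX.coeff i := by rw [coeff_divX]
    rw [h3, ih p.divX (by omega), pow_succ', ← Nat.div_div_eq_div_mul, h1]
    congr 2
    rw [Nat.mul_add_div (by omega), Nat.div_eq_of_lt (by omega), add_zero]

lemma chk_spec (k : ℕ) : ∀ n, chk k n = true → ∀ i, n / bb ^ i % bb % 3 = 0 := by
  induction k with
  | zero =>
    intro n h i
    have : n = 0 := by simpa [chk] using h
    rw [this]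
    simp
  | succ k ih =>
    intro n h i
    rw [chk, Bool.and_eq_true, beq_iff_eq] at h
    rcases i with _ | i
    · rw [pow_zero, Nat.div_one]
      exact h.1
    · rw [pow_succ', ← Nat.div_div_eq_div_mul]
      exact ih _ h.2 i

lemma ev_eq_zero (h3 : (3 : K) = 0) (p : ℕ[X]) (hp : p.eval 1 < bb) (k : ℕ)
    (hk : chk k (p.eval bb) = true) : ev x p = 0 := by
  change p.eval₂ (Nat.castRingHom K) x = 0
  rw [eval₂_eq_sum]
  apply Finset.sum_eq_zero
  intro i _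
  have h1 := coeff_digit bb i p hp
  have h2 := chk_spec k _ hk i
  rw [← h1] at h2
  obtain ⟨m, hm⟩ := Nat.dvd_of_mod_eq_zero h2
  change ((p.coeff i : ℕ) : K) * x ^ i = 0
  rw [hm]
  push_cast
  rw [h3, zero_mul, zero_mul]

lemma check_spec (h3 : (3 : K) = 0) {t : Pk} (ht : check t = true) {z : K} (h : Rep x Y Z t z) :
    z = 0 := by
  obtain ⟨p, q, r, h1, h2, h3', h4, h5, h6, rfl⟩ := h
  rw [check, Bool.and_eq_true, Bool.and_eq_true, Bool.and_eq_true, decide_eq_true_eq] at ht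
  obtain ⟨ht0, ht1, ht2, ht3⟩ := ht
  rw [ev_eq_zero h3 p (by omega) 80 (by rw [h1]; exact ht1),
    ev_eq_zero h3 q (by omega) 80 (by rw [h2]; exact ht2),
    ev_eq_zero h3 r (by omega) 80 (by rw [h3']; exact ht3)]
  ring

/-! ### the identity -/

/-- the numerator with digits `c` -/
def numer (x Y Z : K) (d : ℕ → ℕ) : K :=
  (((d 0 : ℕ) : K) + x * ((d 1 : ℕ) + x * ((d 2 : ℕ) + x * ((d 3 : ℕ) + x * (d 4 : ℕ))))) +
    (((d 5 : ℕ) : K) + x * ((d 6 : ℕ) + x * (d 7 : ℕ))) * Y +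
    (((d 8 : ℕ) : K) + x * ((d 9 : ℕ) + x * (d 10 : ℕ))) * Z

lemma dig_le (c i : ℕ) : dig c i ≤ 2 := by
  have := Nat.mod_lt (c / 3 ^ i) (show 0 < 3 by norm_num)
  unfold dig
  omega

lemma rep_wN (c : ℕ) : Rep x Y Z (wN c) (numer x Y Z (dig c)) := by
  have h := dig_le c
  refine ⟨C (dig c 0) + X * (C (dig c 1) + X * (C (dig c 2) + X * (C (dig c 3) + X * C (dig c 4)))),
    C (dig c 5) + X * (C (dig c 6) + X * C (dig c 7)),
    C (dig c 8) + X * (C (dig c 9) + X * C (dig c 10)), ?_, ?_, ?_, ?_, ?_, ?_, ?_⟩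
  · simp only [eval_add, eval_mul, eval_X, eval_C, wN]
  · simp only [eval_add, eval_mul, eval_X, eval_C, wN]
  · simp only [eval_add, eval_mul, eval_X, eval_C, wN]
  · simp only [eval_add, eval_mul, eval_X, eval_C, wN]
    have := h 0; have := h 1; have := h 2; have := h 3; have := h 4
    omega
  · simp only [eval_add, eval_mul, eval_X, eval_C, wN]
    have := h 5; have := h 6; have := h 7
    omega
  · simp only [eval_add, eval_mul, eval_X, eval_C, wN]
    have := h 8; have := h 9; have := h 10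
    omega
  · have e : ∀ n : ℕ, ev x (C n) = (n : K) := fun n => by simp [ev]
    simp only [map_add, map_mul, e, ev_X]
    rfl

/-- `ϖ ^ 15` times the value at `N / ϖ` of the polynomial `W ^ 5 - W ^ 3 + W`, `W = w ^ 3 - w` -/
def phiK (ϖ N : K) : K :=
  (N ^ 3 - ϖ ^ 2 * N) ^ 5 - ϖ ^ 6 * (N ^ 3 - ϖ ^ 2 * N) ^ 3 + ϖ ^ 12 * (N ^ 3 - ϖ ^ 2 * N)

lemma rep_phi (h3 : (3 : K) = 0) (hR : Rel x Y Z) {t : Pk} {N : K} (h : Rep x Y Z t N) :
    Rep x Y Z (phi (nOf t)) (phiK (x ^ 5 + 2 * x + 1) N) := by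
  have e1 : (2 * pW ^ 2 : ℕ[X]).eval bb = 2 * nW ^ 2 := by simp [eval_pW]
  have e2 : (2 * pW ^ 2 : ℕ[X]).eval 1 ≤ 32 := by simp [eval_pW1]
  have e3 : (2 * pW ^ 6 : ℕ[X]).eval bb = 2 * nW ^ 6 := by simp [eval_pW]
  have e4 : (2 * pW ^ 6 : ℕ[X]).eval 1 ≤ 8192 := by simp [eval_pW1]
  have e5 : (pW ^ 12 : ℕ[X]).eval bb = nW ^ 12 := by simp [eval_pW]
  have e6 : (pW ^ 12 : ℕ[X]).eval 1 ≤ 16777216 := by simp [eval_pW1]
  have hn := ((h.mul hR h).mul hR h).add (h.smul (2 * pW ^ 2) _ _ e1 e2)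
  have hn2 := hn.mul hR hn
  have hn3 := hn2.mul hR hn
  have hf := ((hn2.mul hR hn3).add (hn3.smul (2 * pW ^ 6) _ _ e3 e4)).add (hn.smul (pW ^ 12) _ _ e5 e6)
  have key : ∀ z w : K, Rep x Y Z (phi (nOf t)) z → z = w → Rep x Y Z (phi (nOf t)) w := by
    rintro z w h rfl
    exact h
  refine key _ _ hf ?_
  have h2 : (2 : K) = -1 := by linear_combination h3
  simp only [map_mul, map_pow, ev_pW, map_ofNat]
  rw [phiK]
  generalize x ^ 5 + 2 * x + 1 = ϖ
  rw [h2]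
  ring

lemma rep_total (h3 : (3 : K) = 0) (hR : Rel x Y Z) (l : List ℕ) :
    Rep x Y Z (total l) (2 * (x ^ 5 + 2 * x + 1) ^ 15 +
      (l.map (fun c => phiK (x ^ 5 + 2 * x + 1) (numer x Y Z (dig c)))).sum) := by
  induction l with
  | nil =>
    refine ⟨2 * pW ^ 15, 0, 0, ?_, ?_, ?_, ?_, ?_, ?_, ?_⟩
    · simp [eval_pW, total]
    · simp [total]
    · simp [total]
    · simp [eval_pW1, total]
    · simp
    · simp
    · simp only [map_mul, map_pow, ev_pW, map_ofNat, map_zero, List.map_nil, List.sum_nil]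
      ring
  | cons c l ih =>
    have h := (rep_phi h3 hR (rep_wN (x := x) (Y := Y) (Z := Z) c)).add ih
    rw [List.map_cons, List.sum_cons]
    have e : ∀ a b c : K, a + (b + c) = b + (a + c) := fun a b c => by ring
    rw [e]
    exact h

theorem identity (h3 : (3 : K) = 0) (hR : Rel x Y Z) :
    ((codes ++ listT).map (fun c => phiK (x ^ 5 + 2 * x + 1) (numer x Y Z (dig c)))).sum =
      (x ^ 5 + 2 * x + 1) ^ 15 := by
  have h := check_spec h3 check_ok (rep_total h3 hR (codes ++ listT))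
  linear_combination h - (x ^ 5 + 2 * x + 1) ^ 15 * h3

end Pool.Agent.MP_b811f7_nt
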