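import Pool.Agent.MP_b811f7_nt.Main
import Pool.Agent.MP_b811f7_nt.FieldK
import Pool.Agent.MP_b811f7_nt.Packed

set_option autoImplicit false

namespace Pool.Agent.MP_b811f7_nt

open Polynomial

/-- the coordinate vector with code `c` -/
def vec (c : ℕ) : E11 := fun i => ((dig c i : ℕ) : ZMod 3)

lemma dig_inj (n : ℕ) : ∀ {c c' : ℕ}, c < 3 ^ n → c' < 3 ^ n → (∀ i, i < n → dig c i = dig c' i) → c = c' := by
  induction n with
  | zero =>
    intro c c' h h' _
    rw [pow_zero] at h h'
    omega
  | succ n ih =>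
    intro c c' hc hc' h
    have h0 := h 0 (by omega)
    simp only [dig, pow_zero, Nat.div_one] at h0
    have h1 : c / 3 = c' / 3 := by
      rw [pow_succ] at hc hc'
      apply ih (by omega) (by omega)
      intro i hi
      have := h (i + 1) (by omega)
      simp only [dig, pow_succ'] at this
      rw [← Nat.div_div_eq_div_mul, ← Nat.div_div_eq_div_mul] at this
      exact this
    omega

lemma vec_inj {c c' : ℕ} (hc : c < 177147) (hc' : c' < 177147) (h : vec c = vec c') : c = c' := by
  apply dig_inj 11 hc hc'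
  intro i hi
  have h1 : ((dig c i : ℕ) : ZMod 3) = ((dig c' i : ℕ) : ZMod 3) := congrFun h ⟨i, hi⟩
  rw [ZMod.natCast_eq_natCast_iff'] at h1
  have h2 := dig_le c i
  have h3 := dig_le c' i
  omega

lemma listT_lt : ∀ c ∈ listT, c < 177147 := by decide +kernel
lemma listT_top : ∀ c ∈ listT, dig c 10 = 1 := by decide +kernel
lemma listT_chain : listT.IsChain (· < ·) := by decide +kernel
lemma listT_sorted : listT.Pairwise (· < ·) := List.isChain_iff_pairwise.mp listT_chain

/-- the set of flipped vectors -/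
def TT0 : Finset E11 := (listT.map vec).toFinset

lemma nodup_map : (listT.map vec).Nodup := by
  apply List.Nodup.map_on
  · intro a ha b hb h
    exact vec_inj (listT_lt a ha) (listT_lt b hb) h
  · exact listT_sorted.imp (fun h => h.ne)

lemma TT0_top : ∀ l ∈ TT0, l 10 = 1 := by
  intro l hl
  rw [TT0, List.mem_toFinset, List.mem_map] at hl
  obtain ⟨c, hc, rfl⟩ := hl
  change ((dig c 10 : ℕ) : ZMod 3) = 1
  rw [listT_top c hc]
  rfl

lemma sum_TT0 {M : Type*} [AddCommMonoid M] (g : E11 → M) : ∑ l ∈ TT0, g l = (listT.map (fun c => g (vec c))).sum := by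
  rw [TT0, List.sum_toFinset _ nodup_map, List.map_map]
  rfl

lemma sum_pairs {M : Type*} [AddCommMonoid M] (g : E11 → M) :
    ∑ ab ∈ pairs, g (emb ab) = (codes.map (fun c => g (vec c))).sum := by
  have h1 : vec 1 = emb (1, 0) := by decide
  have h3 : vec 3 = emb (0, 1) := by decide
  have h4 : vec 4 = emb (1, 1) := by decide
  have h5 : vec 5 = emb (2, 1) := by decide
  rw [pairs, Finset.sum_insert (by decide), Finset.sum_insert (by decide), Finset.sum_insert (by decide),
    Finset.sum_singleton, codes]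
  simp only [List.map_cons, List.map_nil, List.sum_cons, List.sum_nil, h1, h3, h4, h5, add_zero]

section

variable {K : Type*} [Field K] {φ : (ZMod 3)[X] →+* K} {y : K}

lemma rel_of_setup (h : Setup φ y) : Rel (φ X) (φ qB * y) (φ qB * y ^ 2) := by
  have hB := psi_qB φ
  have hA := psi_qA φ
  have hr := h.rel
  refine ⟨?_, ?_, ?_⟩
  · rw [← hB]; ring
  · rw [← hB, ← hA]
    linear_combination φ qB * hr
  · rw [← hB, ← hA]
    linear_combination (φ qB * y) * hr

lemma phi_C_nat (n : ℕ) : φ (C ((n : ℕ) : ZMod 3)) = (n : K) := by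
  rw [map_natCast C, map_natCast]

lemma numer_eq (c : ℕ) : numer (φ X) (φ qB * y) (φ qB * y ^ 2) (dig c) = numl φ y (vec c) := by
  have h : ∀ i : Fin 11, φ (C (vec c i)) = ((dig c i : ℕ) : K) := fun i => phi_C_nat _
  rw [numl, P0, P1, P2]
  simp only [map_add, map_mul, h]
  rfl

lemma ff_wl [Algebra (ZMod 3) K] (h : Setup φ y) (l : E11) :
    φ qW ^ 15 * ff (wl φ y l) = - phiK (φ qW) (numl φ y l) := by
  have hW := phi_ne_zero h qW_ne_zero
  rw [ff_eq, wl, phiK]
  generalize numl φ y l = N
  generalize φ qW = ϖ at *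
  field_simp

theorem identity_K [Algebra (ZMod 3) K] (h : Setup φ y) :
    1 + ∑ ab ∈ pairs, ff (wl φ y (emb ab)) + ∑ l ∈ TT0, ff (wl φ y l) = 0 := by
  have hW := phi_ne_zero h qW_ne_zero
  have h1 := identity (three_K φ) (rel_of_setup h)
  rw [← psi_qW φ] at h1
  rw [sum_TT0 (fun l => ff (wl φ y l)), sum_pairs (fun l => ff (wl φ y l)), add_assoc, ← List.sum_append,
    ← List.map_append]
  apply mul_left_cancel₀ (pow_ne_zero 15 hW)
  rw [mul_zero, mul_add, mul_one, ← List.sum_map_mul_left]
  have h2 : (codes ++ listT).map (fun c => φ qW ^ 15 * ff (wl φ y (vec c))) =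
      (codes ++ listT).map (fun c => (-1) * phiK (φ qW) (numer (φ X) (φ qB * y) (φ qB * y ^ 2) (dig c))) := by
    apply List.map_congr_left
    intro c _
    rw [ff_wl h, numer_eq]
    ring
  rw [h2, List.sum_map_mul_left, h1]
  ring

end

/-- the counterexample -/
theorem counterexample : ∃ (v : Valuation KK (WithZero (Multiplicative ℤ))) (σ : SignFunction v)
    (S : Set (Res v)ˣ), Function.Surjective v ∧ Finite (Res v) ∧ IsRepresentatives (ZMod 3) σ S ∧
      zetaValue σ S 17 = 0 := by
  obtain ⟨v, hv, hfin, hvW, hmem, hval⟩ := exists_place setupKK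
  obtain ⟨σ, S, hS, hz⟩ := criterion (w := AddMonoidHom.mk' (wl phiKK yK) (fun l m => wl_add l m))
    function_field_KK hv ⟨hmem, hval⟩ TT0 TT0_top (identity_K setupKK)
  exact ⟨v, σ, S, hv, hfin, hS, hz⟩

end Pool.Agent.MP_b811f7_nt
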