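import Mathlib

set_option autoImplicit false

namespace Pool.Agent.MP_b811f7_nt

/-- `S` contains exactly one of `x`, `-x` for each nonzero `x`. -/
def Half {Q : Type*} [AddCommGroup Q] (S : Set Q) : Prop := ∀ x : Q, x ≠ 0 → (x ∈ S ↔ -x ∉ S)

lemma exists_half {Q : Type*} [AddCommGroup Q] (h2 : ∀ x : Q, x = -x → x = 0) (T : Set Q)
    (hT : ∀ x ∈ T, -x ∉ T) : ∃ S : Set Q, T ⊆ S ∧ Half S := by
  classical
  refine ⟨{x | x ∈ T ∨ (-x ∉ T ∧ WellOrderingRel x (-x))}, fun x hx => Or.inl hx, ?_⟩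
  intro x hx
  have hne : x ≠ -x := fun h => hx (h2 x h)
  constructor
  · rintro (h | ⟨h1, h2⟩) (h' | ⟨h1', h2'⟩)
    · exact hT x h h'
    · rw [neg_neg] at h1'
      exact h1' h
    · exact h1 h'
    · rw [neg_neg] at h2'
      exact asymm h2 h2'
  · intro h
    rw [Set.mem_ofPred_eq, not_or] at h
    obtain ⟨h3, h4⟩ := h
    rw [neg_neg] at h4
    by_cases hxT : x ∈ T
    · exact Or.inl hxT
    · right
      refine ⟨h3, ?_⟩
      rcases trichotomous_of WellOrderingRel x (-x) with h5 | h5 | h5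
      · exact h5
      · exact absurd h5 hne
      · exact absurd ⟨hxT, h5⟩ h4

/-- Half systems that are invariant outside a subgroup. -/
lemma exists_half_invariant {R : Type*} [AddCommGroup R] (h3 : ∀ x : R, x + x + x = 0)
    (G : AddSubgroup R) (SG : Set R) (hSG : SG ⊆ G) (hSGhalf : ∀ x ∈ G, x ≠ 0 → (x ∈ SG ↔ -x ∉ SG))
    (T : Set R) (hT : ∀ x ∈ T, ∀ y ∈ T, x + y ∉ G) :
    ∃ E : Set R, T ⊆ E ∧ (∀ x ∈ E, ∀ g ∈ G, x + g ∈ E) ∧ (∀ x ∈ E, x ∉ G) ∧ Half (E ∪ SG) := by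
  classical
  have h2R : ∀ x : R, x = -x → x = 0 := by
    intro x hx
    have h4 := h3 x
    have h5 : x + x = 0 := by
      nth_rw 2 [hx]
      exact add_neg_cancel x
    rw [h5, zero_add] at h4
    exact h4
  have hTG : ∀ x ∈ T, x ∉ G := by
    intro x hx hxG
    exact hT x hx x hx (G.add_mem hxG hxG)
  have h3Q : ∀ x : R ⧸ G, x + x + x = 0 := by
    intro x
    obtain ⟨y, rfl⟩ := QuotientAddGroup.mk_surjective x
    rw [← QuotientAddGroup.mk_add, ← QuotientAddGroup.mk_add, h3, QuotientAddGroup.mk_zero]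
  have h2Q : ∀ x : R ⧸ G, x = -x → x = 0 := by
    intro x hx
    have h4 := h3Q x
    have h5 : x + x = 0 := by
      nth_rw 2 [hx]
      exact add_neg_cancel x
    rw [h5, zero_add] at h4
    exact h4
  obtain ⟨S, hTS, hS⟩ := exists_half h2Q ((QuotientAddGroup.mk : R → R ⧸ G) '' T) (by
    rintro _ ⟨x, hx, rfl⟩ ⟨z, hz, hxz⟩
    apply hT x hx z hz
    rw [← QuotientAddGroup.eq_zero_iff, QuotientAddGroup.mk_add, hxz, add_neg_cancel])
  refine ⟨{x | x ∉ G ∧ (QuotientAddGroup.mk x : R ⧸ G) ∈ S}, ?_, ?_, fun x hx => hx.1, ?_⟩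
  · intro x hx
    exact ⟨hTG x hx, hTS ⟨x, hx, rfl⟩⟩
  · rintro x ⟨hx1, hx2⟩ g hg
    refine ⟨fun h => hx1 ?_, ?_⟩
    · have := G.sub_mem h hg
      rwa [add_sub_cancel_right] at this
    · have : (QuotientAddGroup.mk (x + g) : R ⧸ G) = QuotientAddGroup.mk x := by
        rw [QuotientAddGroup.mk_add, (QuotientAddGroup.eq_zero_iff g).mpr hg, add_zero]
      rw [this]
      exact hx2
  · intro x hx
    by_cases hxG : x ∈ G
    · have hxG' : -x ∈ G := G.neg_mem hxG
      have := hSGhalf x hxG hx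
      simp only [Set.mem_union, Set.mem_ofPred_eq, hxG, hxG', not_true_eq_false, false_and, false_or]
      exact this
    · have hxG' : -x ∉ G := fun h => hxG (by rw [← neg_neg x]; exact G.neg_mem h)
      have h4 : x ∉ SG := fun h => hxG (hSG h)
      have h5 : -x ∉ SG := fun h => hxG' (hSG h)
      have h6 : (QuotientAddGroup.mk x : R ⧸ G) ≠ 0 := by
        rw [Ne, QuotientAddGroup.eq_zero_iff]
        exact hxG
      have := hS _ h6
      simp only [Set.mem_union, Set.mem_ofPred_eq, hxG, hxG', h4, h5, not_false_eq_true, true_and, or_false,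
        QuotientAddGroup.mk_neg]
      exact this

/-- flipping a half system -/
lemma half_flip {R : Type*} [AddCommGroup R] {S : Set R} (hS : Half S) {T : Set R} (hT : T ⊆ S)
    : Half ({x | (x ∈ S ∧ x ∉ T) ∨ -x ∈ T} : Set R) := by
  intro x hx
  have hx' : -x ≠ 0 := neg_ne_zero.mpr hx
  have h1 := hS x hx
  simp only [Set.mem_ofPred_eq, neg_neg]
  by_cases hxT : x ∈ T
  · have h2 : x ∈ S := hT hxT
    have h3 : -x ∉ S := h1.mp h2
    have h4 : -x ∉ T := fun h => h3 (hT h)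
    simp [hxT, h4]
  · by_cases hxT' : -x ∈ T
    · have h2 : -x ∈ S := hT hxT'
      simp [hxT, hxT']
    · simp [hxT, hxT', h1]

end Pool.Agent.MP_b811f7_nt
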