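import Pool.Agent.MP_b811f7_nt.Sums
import Pool.Agent.MP_b811f7_nt.Half

set_option autoImplicit false

namespace Pool.Agent.MP_b811f7_nt

abbrev E11 : Type := Fin 11 → ZMod 3

/-- the embedding of the first two coordinates -/
def emb : ZMod 3 × ZMod 3 →+ E11 where
  toFun ab := fun i => if i = 0 then ab.1 else if i = 1 then ab.2 else 0
  map_zero' := by
    funext i
    simp
  map_add' := by
    intro x y
    funext i
    simp only [Pi.add_apply, Prod.fst_add, Prod.snd_add]
    split_ifs <;> simp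

lemma emb_zero (ab : ZMod 3 × ZMod 3) : emb ab 0 = ab.1 := rfl
lemma emb_one (ab : ZMod 3 × ZMod 3) : emb ab 1 = ab.2 := rfl
lemma emb_ten (ab : ZMod 3 × ZMod 3) : emb ab 10 = 0 := rfl

lemma emb_injective : Function.Injective emb := by
  intro x y h
  have h0 : emb x 0 = emb y 0 := by rw [h]
  have h1 : emb x 1 = emb y 1 := by rw [h]
  exact Prod.ext h0 h1

def pairs : Finset (ZMod 3 × ZMod 3) := {(1, 0), (0, 1), (1, 1), (2, 1)}

lemma pairs_half : ∀ x : ZMod 3 × ZMod 3, x ≠ 0 → (x ∈ pairs ↔ -x ∉ pairs) := by decide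

lemma zero_notMem_pairs : (0 : ZMod 3 × ZMod 3) ∉ pairs := by decide

variable {K : Type*} [Field K] {v : Valuation K (WithZero (Multiplicative ℤ))} {π : K}

open Classical in
/-- leading coefficient of the elements with pole order at most one -/
noncomputable def rho (v : Valuation K (WithZero (Multiplicative ℤ))) (π : K) (a : K) : Res v :=
  if h : a * π ∈ v.valuationSubring then IsLocalRing.residue v.valuationSubring ⟨_, h⟩ else 0

lemma mem_of_le (hπ : v π = WithZero.exp (-1 : ℤ)) {a : K} (ha : v a ≤ WithZero.exp (1 : ℤ)) :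
    a * π ∈ v.valuationSubring := by
  rw [Valuation.mem_valuationSubring_iff, map_mul, hπ]
  calc v a * WithZero.exp (-1 : ℤ) ≤ WithZero.exp (1 : ℤ) * WithZero.exp (-1 : ℤ) := by gcongr
    _ = 1 := by rw [← WithZero.exp_add]; simp

lemma rho_eq {a : K} (h : a * π ∈ v.valuationSubring) :
    rho v π a = IsLocalRing.residue v.valuationSubring ⟨_, h⟩ := dif_pos h

lemma rho_add (hπ : v π = WithZero.exp (-1 : ℤ)) {a b : K} (ha : v a ≤ WithZero.exp (1 : ℤ))
    (hb : v b ≤ WithZero.exp (1 : ℤ)) : rho v π (a + b) = rho v π a + rho v π b := by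
  have hab : v (a + b) ≤ WithZero.exp (1 : ℤ) := Valuation.map_add_le v ha hb
  rw [rho_eq (mem_of_le hπ ha), rho_eq (mem_of_le hπ hb), rho_eq (mem_of_le hπ hab), ← map_add]
  congr 1
  exact Subtype.ext (add_mul _ _ _)

lemma rho_zero_iff (hπ : v π = WithZero.exp (-1 : ℤ)) {a : K} (ha : v a ≤ WithZero.exp (1 : ℤ)) :
    rho v π a = 0 ↔ v a ≤ 1 := by
  rw [rho_eq (mem_of_le hπ ha), res_eq_zero_iff, map_mul, hπ]
  constructor
  · intro h
    have h1 : v a < WithZero.exp ((0 : ℤ) + 1) := by
      have h2 := mul_lt_mul_of_pos_right h (WithZero.exp_pos (a := (1 : ℤ)))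
      rwa [mul_assoc, ← WithZero.exp_add, neg_add_cancel, WithZero.exp_zero, mul_one, one_mul] at h2
    have := lt_exp_succ h1
    rwa [WithZero.exp_zero] at this
  · intro h
    calc v a * WithZero.exp (-1 : ℤ) ≤ 1 * WithZero.exp (-1 : ℤ) := by gcongr
      _ < 1 := by
        rw [one_mul, ← WithZero.exp_zero, WithZero.exp_lt_exp]
        norm_num

lemma rho_zero (hπ : v π = WithZero.exp (-1 : ℤ)) : rho v π 0 = 0 := by
  rw [rho_zero_iff hπ]
  · rw [map_zero]; exact zero_le
  · rw [map_zero]; exact zero_le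

lemma rho_neg (hπ : v π = WithZero.exp (-1 : ℤ)) {a : K} (ha : v a ≤ WithZero.exp (1 : ℤ)) :
    rho v π (-a) = -rho v π a := by
  have hna : v (-a) ≤ WithZero.exp (1 : ℤ) := by rwa [Valuation.map_neg]
  have h := rho_add hπ ha hna
  rw [add_neg_cancel, rho_zero hπ] at h
  exact (neg_eq_of_add_eq_zero_right h.symm).symm

lemma one_le_exp_one : (1 : WithZero (Multiplicative ℤ)) ≤ WithZero.exp (1 : ℤ) := by
  rw [← WithZero.exp_zero, WithZero.exp_le_exp]
  norm_num

variable [Algebra (ZMod 3) K]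

lemma v_const_le (v : Valuation K (WithZero (Multiplicative ℤ))) (c : ZMod 3) : v (algebraMap (ZMod 3) K c) ≤ 1 :=
  const_mem v.valuationSubring c

lemma v_const_le' (v : Valuation K (WithZero (Multiplicative ℤ))) (c : ZMod 3) :
    v (algebraMap (ZMod 3) K c) ≤ WithZero.exp (1 : ℤ) := (v_const_le v c).trans one_le_exp_one

lemma rho_const (hπ : v π = WithZero.exp (-1 : ℤ)) (c : ZMod 3) : rho v π (algebraMap (ZMod 3) K c) = 0 := by
  rw [rho_zero_iff hπ (v_const_le' v c)]
  exact v_const_le v c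

/-- the level one elements -/
structure Level1 (v : Valuation K (WithZero (Multiplicative ℤ))) (a : K) : Prop where
  mem : a ∈ regularRing v
  val : v a = WithZero.exp (1 : ℤ)

lemma level1_finite (hK : IsFunctionFieldOver (ZMod 3) K) (hv : Function.Surjective v) [Finite (Res v)] :
    {a : K | Level1 v a}.Finite :=
  (level_finite hK hv 1).subset (fun a ha => ⟨ha.1, by rw [ha.2]; exact le_refl _⟩)

open Classical in
/-- sum of the seventeenth powers of the level one elements with leading coefficient in `E` -/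
noncomputable def sg (v : Valuation K (WithZero (Multiplicative ℤ))) (π : K) (E : Set (Res v)) : K :=
  ∑ᶠ a ∈ {a : K | Level1 v a ∧ rho v π a ∈ E}, a ^ 17

lemma finE (hK : IsFunctionFieldOver (ZMod 3) K) (hv : Function.Surjective v) [Finite (Res v)] (E : Set (Res v)) :
    {a : K | Level1 v a ∧ rho v π a ∈ E}.Finite :=
  (level1_finite hK hv).subset (fun _ ha => ha.1)

lemma sg_union (hK : IsFunctionFieldOver (ZMod 3) K) (hv : Function.Surjective v) [Finite (Res v)]
    {E E' : Set (Res v)} (h : Disjoint E E') : sg v π (E ∪ E') = sg v π E + sg v π E' := by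
  have h1 : {a : K | Level1 v a ∧ rho v π a ∈ E ∪ E'} =
      {a : K | Level1 v a ∧ rho v π a ∈ E} ∪ {a : K | Level1 v a ∧ rho v π a ∈ E'} := by
    ext a
    simp only [Set.mem_union, Set.mem_ofPred_eq]
    tauto
  rw [sg, h1, finsum_mem_union _ (finE hK hv E) (finE hK hv E')]
  · rfl
  · rw [Set.disjoint_left]
    rintro a ⟨_, h2⟩ ⟨_, h3⟩
    exact Set.disjoint_left.mp h h2 h3

lemma sg_neg (hK : IsFunctionFieldOver (ZMod 3) K) (hv : Function.Surjective v) [Finite (Res v)]
    (hπ : v π = WithZero.exp (-1 : ℤ)) (E : Set (Res v)) : sg v π {x | -x ∈ E} = - sg v π E := by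
  classical
  rw [sg, sg, finsum_mem_eq_finite_toFinset_sum _ (finE hK hv _), finsum_mem_eq_finite_toFinset_sum _ (finE hK hv _),
    ← Finset.sum_neg_distrib]
  have hneg : ∀ a : K, Level1 v a → Level1 v (-a) := fun a ha =>
    ⟨neg_mem ha.mem, by rw [Valuation.map_neg]; exact ha.val⟩
  refine Finset.sum_bij (fun a _ => -a) ?_ ?_ ?_ ?_
  · intro a ha
    rw [Set.Finite.mem_toFinset] at *
    refine ⟨hneg a ha.1, ?_⟩
    rw [rho_neg hπ ha.1.val.le]
    exact ha.2
  · intro a _ b _ h
    exact neg_injective h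
  · intro a ha
    rw [Set.Finite.mem_toFinset] at ha
    refine ⟨-a, ?_, neg_neg a⟩
    rw [Set.Finite.mem_toFinset]
    refine ⟨hneg a ha.1, ?_⟩
    rw [rho_neg hπ ha.1.val.le]
    change - -rho v π a ∈ E
    rw [neg_neg]
    exact ha.2
  · intro a _
    ring

/-- the data of the space -/
structure Space (v : Valuation K (WithZero (Multiplicative ℤ))) (w : E11 →+ K) : Prop where
  mem : ∀ l, w l ∈ regularRing v
  val : ∀ l, l ≠ 0 → v (w l) = WithZero.exp (1 : ℤ)

omit [Algebra (ZMod 3) K] in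
lemma Space.le {w : E11 →+ K} (hw : Space v w) (l : E11) : v (w l) ≤ WithZero.exp (1 : ℤ) := by
  rcases eq_or_ne l 0 with rfl | hl
  · rw [map_zero, map_zero]; exact zero_le
  · exact (hw.val l hl).le

/-- leading coefficients of the space -/
noncomputable def rw' (hπ : v π = WithZero.exp (-1 : ℤ)) {w : E11 →+ K} (hw : Space v w) : E11 →+ Res v :=
  AddMonoidHom.mk' (fun l => rho v π (w l)) (fun l m => by
    rw [map_add, rho_add hπ (hw.le l) (hw.le m)])

lemma rw_apply (hπ : v π = WithZero.exp (-1 : ℤ)) {w : E11 →+ K} (hw : Space v w) (l : E11) :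
    rw' hπ hw l = rho v π (w l) := rfl

lemma exp_one_not_le : ¬ (WithZero.exp (1 : ℤ) : WithZero (Multiplicative ℤ)) ≤ 1 := by
  rw [← WithZero.exp_zero, WithZero.exp_le_exp]
  norm_num

lemma rw_injective (hπ : v π = WithZero.exp (-1 : ℤ)) {w : E11 →+ K} (hw : Space v w) :
    Function.Injective (rw' hπ hw) := by
  rw [injective_iff_map_eq_zero]
  intro l hl
  rw [rw_apply, rho_zero_iff hπ (hw.le l)] at hl
  by_contra h
  rw [hw.val l h] at hl
  exact exp_one_not_le hl

lemma sg_image (hK : IsFunctionFieldOver (ZMod 3) K) (hv : Function.Surjective v) [Finite (Res v)]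
    (hπ : v π = WithZero.exp (-1 : ℤ)) {w : E11 →+ K} (hw : Space v w) (U : Finset E11) (hU : (0 : E11) ∉ U) :
    sg v π (rw' hπ hw '' U) = ∑ l ∈ U, ff (w l) := by
  classical
  rw [sg, finsum_mem_eq_finite_toFinset_sum _ (finE hK hv _)]
  simp only [ff]
  rw [← Finset.sum_product' (f := fun l c => (w l + algebraMap (ZMod 3) K c) ^ 17)]
  symm
  refine Finset.sum_bij (fun x _ => w x.1 + algebraMap (ZMod 3) K x.2) ?_ ?_ ?_ ?_
  · rintro ⟨l, c⟩ hx
    rw [Finset.mem_product] at hx
    rw [Set.Finite.mem_toFinset]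
    have hl : l ≠ 0 := by
      rintro rfl
      exact hU hx.1
    refine ⟨⟨add_mem (hw.mem l) (const_mem_A v c), ?_⟩, ⟨l, hx.1, ?_⟩⟩
    · have h1 : v (algebraMap (ZMod 3) K c) < v (w l) := by
        rw [hw.val l hl]
        exact lt_of_le_of_lt (v_const_le v c) (lt_of_not_ge exp_one_not_le)
      rw [Valuation.map_add_eq_of_lt_left v h1, hw.val l hl]
    · rw [rw_apply, rho_add hπ (hw.le l) (v_const_le' v c), rho_const hπ, add_zero]
  · rintro ⟨l, c⟩ hx ⟨l', c'⟩ hx' h
    have h' : w l + algebraMap (ZMod 3) K c = w l' + algebraMap (ZMod 3) K c' := h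
    have h1 : rho v π (w l) = rho v π (w l') := by
      have := congrArg (rho v π) h'
      rwa [rho_add hπ (hw.le l) (v_const_le' v c), rho_add hπ (hw.le l') (v_const_le' v c'), rho_const hπ,
        rho_const hπ, add_zero, add_zero] at this
    have h2 : l = l' := rw_injective hπ hw h1
    subst h2
    have h3 : algebraMap (ZMod 3) K c = algebraMap (ZMod 3) K c' := add_left_cancel h'
    rw [(algebraMap (ZMod 3) K).injective h3]
  · intro a ha
    rw [Set.Finite.mem_toFinset] at ha
    obtain ⟨ha1, ⟨l, hl, hla⟩⟩ := ha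
    rw [rw_apply] at hla
    have h1 : rho v π (a - w l) = 0 := by
      rw [sub_eq_add_neg, rho_add hπ ha1.val.le (by rw [Valuation.map_neg]; exact hw.le l),
        rho_neg hπ (hw.le l), hla, add_neg_cancel]
    have h2 : v (a - w l) ≤ WithZero.exp (1 : ℤ) := Valuation.map_sub_le v ha1.val.le (hw.le l)
    rw [rho_zero_iff hπ h2] at h1
    obtain ⟨c, hc⟩ := const_of_regular hK v (sub_mem ha1.mem (hw.mem l)) h1
    refine ⟨(l, c), ?_, ?_⟩
    · rw [Finset.mem_product]
      exact ⟨hl, Finset.mem_univ _⟩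
    · change w l + algebraMap (ZMod 3) K c = a
      rw [hc]
      ring
  · rintro ⟨l, c⟩ _
    rfl

end Pool.Agent.MP_b811f7_nt
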