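import Mathlib

set_option autoImplicit false

namespace Pool.Agent.MP_b811f7_nt

/-- `K` is a global function field whose full field of constants is the finite field `F`. -/
structure IsFunctionFieldOver (F K : Type*) [Field F] [Field K] [Algebra F K] : Prop where
  /-- `K` is a finite extension of a rational function field `F(t)`. -/
  finite_over : ∃ t : K, Transcendental F t ∧ FiniteDimensional (IntermediateField.adjoin F {t}) K
  /-- every element of `K` algebraic over `F` is a constant. -/
  full : ∀ x : K, IsAlgebraic F x → ∃ c : F, algebraMap F K c = x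

variable {K : Type*} [Field K]

/-- The ring `A` of elements of `K` which are regular at every place other than `v`.
The places of `K` are its valuation subrings different from `K`. -/
def regularRing (v : Valuation K (WithZero (Multiplicative ℤ))) : Subring K where
  carrier := {x | ∀ O : ValuationSubring K, O ≠ ⊤ → O ≠ v.valuationSubring → x ∈ O}
  mul_mem' := fun ha hb O h1 h2 => O.mul_mem _ _ (ha O h1 h2) (hb O h1 h2)
  one_mem' := fun O _ _ => O.one_mem
  add_mem' := fun ha hb O h1 h2 => O.add_mem _ _ (ha O h1 h2) (hb O h1 h2)
  zero_mem' := fun O _ _ => O.zero_mem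
  neg_mem' := fun ha O h1 h2 => O.neg_mem _ (ha O h1 h2)

/-- The residue field at the place `v`. -/
abbrev Res (v : Valuation K (WithZero (Multiplicative ℤ))) : Type _ :=
  IsLocalRing.ResidueField v.valuationSubring

/-- A sign function at `v`: a homomorphism from the nonzero elements of `K` to the nonzero elements
of the residue field which on units of the valuation ring is reduction. -/
structure SignFunction (v : Valuation K (WithZero (Multiplicative ℤ))) where
  sgn : Kˣ →* (Res v)ˣ
  sgn_unit : ∀ (u : Kˣ) (h : (u : K) ∈ v.valuationSubring), v (u : K) = 1 →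
    ((sgn u : (Res v)ˣ) : Res v) = IsLocalRing.residue v.valuationSubring ⟨(u : K), h⟩

/-- `S` is a set of representatives of the nonzero elements of the residue field modulo the
nonzero constants. -/
def IsRepresentatives (F : Type*) [Field F] [Algebra F K]
    {v : Valuation K (WithZero (Multiplicative ℤ))} (σ : SignFunction v) (S : Set (Res v)ˣ) : Prop :=
  ∀ y : (Res v)ˣ, ∃! s : (Res v)ˣ, s ∈ S ∧
    ∃ c : Fˣ, y = σ.sgn (Units.map (algebraMap F K : F →* K) c) * s

/-- The positive elements of `A` whose pole at `v` has order `n`. -/
def positive {v : Valuation K (WithZero (Multiplicative ℤ))} (σ : SignFunction v) (S : Set (Res v)ˣ)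
    (n : ℕ) : Set K :=
  {a | a ∈ regularRing v ∧ v a = WithZero.exp (n : ℤ) ∧ ∃ h : a ≠ 0, σ.sgn (Units.mk0 a h) ∈ S}

/-- The power sum of the positive elements with pole order `n`. -/
noncomputable def powerSum {v : Valuation K (WithZero (Multiplicative ℤ))} (σ : SignFunction v)
    (S : Set (Res v)ˣ) (k n : ℕ) : K :=
  ∑ᶠ a ∈ positive σ S n, a ^ k

/-- The Goss zeta value of `A` at `-k`. -/
noncomputable def zetaValue {v : Valuation K (WithZero (Multiplicative ℤ))} (σ : SignFunction v)
    (S : Set (Res v)ˣ) (k : ℕ) : K :=
  ∑ᶠ n : ℕ, powerSum σ S k n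

end Pool.Agent.MP_b811f7_nt
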