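import Pool.Agent.MP_b811f7_nt.Criterion

set_option autoImplicit false

namespace Pool.Agent.MP_b811f7_nt

variable {K : Type*} [Field K] {v : Valuation K (WithZero (Multiplicative ℤ))} {π : K} [Algebra (ZMod 3) K]

lemma w_emb (w : E11 →+ K) (a b : ZMod 3) :
    w (emb (a, b)) = algebraMap (ZMod 3) K a * w (emb (1, 0)) + algebraMap (ZMod 3) K b * w (emb (0, 1)) := by
  have h : ∀ (a : ZMod 3) (x : E11), w (a • x) = algebraMap (ZMod 3) K a * w x := by
    intro a x
    have := (w.toZModLinearMap 3).map_smul a x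
    rw [← Algebra.smul_def]
    exact this
  have h2 : emb (a, b) = a • emb (1, 0) + b • emb (0, 1) := by
    funext i
    simp only [emb, AddMonoidHom.coe_mk, ZeroHom.coe_mk, Pi.add_apply, Pi.smul_apply, smul_eq_mul]
    split_ifs <;> simp
  rw [h2, map_add, h, h]

/-- the three dimensional space of translations -/
noncomputable def nu (w : E11 →+ K) : ZMod 3 × ZMod 3 × ZMod 3 →+ K :=
  AddMonoidHom.mk' (fun c => algebraMap (ZMod 3) K c.1 + w (emb c.2)) (fun c d => by
    simp only [Prod.fst_add, Prod.snd_add, map_add]; ring)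

lemma nu_apply (w : E11 →+ K) (c : ZMod 3 × ZMod 3 × ZMod 3) :
    nu w c = algebraMap (ZMod 3) K c.1 + w (emb c.2) := rfl

lemma nu_injective {w : E11 →+ K} (hw : Space v w) : Function.Injective (nu w) := by
  rw [injective_iff_map_eq_zero]
  rintro ⟨c, ab⟩ h
  rw [nu_apply] at h
  have h1 : emb ab = 0 := by
    by_contra hne
    have h2 := hw.val _ hne
    have h3 : w (emb ab) = - algebraMap (ZMod 3) K c := eq_neg_of_add_eq_zero_right h
    rw [h3, Valuation.map_neg] at h2
    have h4 := v_const_le v c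
    rw [h2] at h4
    exact exp_one_not_le h4
  have h2 : ab = 0 := emb_injective (by rw [h1, map_zero])
  subst h2
  rw [map_zero, map_zero, add_zero] at h
  have h3 : c = 0 := (algebraMap (ZMod 3) K).injective (by rw [h, map_zero])
  rw [h3]
  rfl

lemma sum_nu (w : E11 →+ K) (a : K) : ∑ c : ZMod 3 × ZMod 3 × ZMod 3, (a + nu w c) ^ 17 = 0 := by
  rw [Fintype.sum_prod_type, Finset.sum_comm, Fintype.sum_prod_type, ← plane_sum a (w (emb (1, 0))) (w (emb (0, 1)))]
  refine Finset.sum_congr rfl (fun α _ => Finset.sum_congr rfl (fun β _ => ?_))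
  rw [ff]
  refine Finset.sum_congr rfl (fun c _ => ?_)
  rw [nu_apply, w_emb]
  congr 1
  ring

/-- sums over finite sets invariant under the translations vanish -/
lemma sum_zero_of_invariant {w : E11 →+ K} (hw : Space v w) (P : Finset K)
    (hP : ∀ a ∈ P, ∀ c, a + nu w c ∈ P) : ∑ a ∈ P, a ^ 17 = 0 := by
  classical
  have : Finite (nu w).range := Set.finite_range (nu w)
  have : Fintype (nu w).range := Fintype.ofFinite _
  apply sum_invariant (nu w).range
  · rintro a ha b ⟨c, rfl⟩
    exact hP a ha c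
  · intro a _
    rw [← sum_nu w a]
    symm
    refine Fintype.sum_bijective (fun c => (⟨nu w c, ⟨c, rfl⟩⟩ : (nu w).range)) ⟨?_, ?_⟩ _ _ (fun c => rfl)
    · intro c e h
      exact nu_injective hw (congrArg Subtype.val h)
    · rintro ⟨_, c, rfl⟩
      exact ⟨c, rfl⟩

lemma nu_mem {w : E11 →+ K} (hw : Space v w) (c : ZMod 3 × ZMod 3 × ZMod 3) : nu w c ∈ regularRing v :=
  add_mem (const_mem_A v _) (hw.mem _)

lemma nu_le {w : E11 →+ K} (hw : Space v w) (c : ZMod 3 × ZMod 3 × ZMod 3) : v (nu w c) ≤ WithZero.exp (1 : ℤ) :=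
  Valuation.map_add_le v (v_const_le' v _) (hw.le _)

/-- the subgroup of leading coefficients of the translations -/
noncomputable def GG (hπ : v π = WithZero.exp (-1 : ℤ)) {w : E11 →+ K} (hw : Space v w) : AddSubgroup (Res v) :=
  ((rw' hπ hw).comp emb).range

lemma rho_nu (hπ : v π = WithZero.exp (-1 : ℤ)) {w : E11 →+ K} (hw : Space v w) (c : ZMod 3 × ZMod 3 × ZMod 3) :
    rho v π (nu w c) ∈ GG hπ hw := by
  refine ⟨c.2, ?_⟩
  rw [nu_apply, rho_add hπ (v_const_le' v _) (hw.le _), rho_const hπ, zero_add]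
  rfl

lemma sg_invariant (hK : IsFunctionFieldOver (ZMod 3) K) (hv : Function.Surjective v) [Finite (Res v)]
    (hπ : v π = WithZero.exp (-1 : ℤ)) {w : E11 →+ K} (hw : Space v w) (E : Set (Res v))
    (hE : ∀ x ∈ E, ∀ g ∈ GG hπ hw, x + g ∈ E) (hEG : ∀ x ∈ E, x ∉ GG hπ hw) : sg v π E = 0 := by
  rw [sg, finsum_mem_eq_finite_toFinset_sum _ (finE hK hv E)]
  apply sum_zero_of_invariant hw
  intro a ha c
  rw [Set.Finite.mem_toFinset] at *
  obtain ⟨ha1, ha2⟩ := ha
  have h1 : rho v π (a + nu w c) = rho v π a + rho v π (nu w c) := rho_add hπ ha1.val.le (nu_le hw c)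
  have h2 : rho v π (a + nu w c) ∈ E := by
    rw [h1]
    exact hE _ ha2 _ (rho_nu hπ hw c)
  have h3 : v (a + nu w c) ≤ WithZero.exp (1 : ℤ) := Valuation.map_add_le v ha1.val.le (nu_le hw c)
  refine ⟨⟨add_mem ha1.mem (nu_mem hw c), ?_⟩, h2⟩
  apply le_antisymm h3
  by_contra h4
  rw [not_le] at h4
  have h5 : v (a + nu w c) ≤ 1 := by
    have := lt_exp_succ (n := 0) (x := v (a + nu w c)) (by simpa using h4)
    simpa using this
  rw [← rho_zero_iff hπ h3] at h5
  rw [h5] at h2
  exact hEG _ h2 (zero_mem _)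

lemma three_res (x : Res v) : x + x + x = 0 := by
  have h : ((3 : ℕ) : K) = 0 := by exact_mod_cast three_alg K
  have h2 : ((3 : ℕ) : v.valuationSubring) = 0 := by
    apply Subtype.ext
    exact h
  have h3 : ((3 : ℕ) : Res v) = 0 := by
    rw [← map_natCast (IsLocalRing.residue v.valuationSubring), h2, map_zero]
  have h4 : x + x + x = ((3 : ℕ) : Res v) * x := by push_cast; ring
  rw [h4, h3, zero_mul]

lemma units_zmod3 : ∀ c : (ZMod 3)ˣ, c = 1 ∨ c = -1 := by decide

/-- Criterion for the existence of a sign normalisation with vanishing zeta value at `-17`. -/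
theorem criterion (hK : IsFunctionFieldOver (ZMod 3) K) (hv : Function.Surjective v) [Finite (Res v)]
    {w : E11 →+ K} (hw : Space v w) (T : Finset E11) (hT : ∀ l ∈ T, l 10 = 1)
    (hid : 1 + ∑ ab ∈ pairs, ff (w (emb ab)) + ∑ l ∈ T, ff (w l) = 0) :
    ∃ (σ : SignFunction v) (S : Set (Res v)ˣ), IsRepresentatives (ZMod 3) σ S ∧ zetaValue σ S 17 = 0 := by
  classical
  have hp1 : emb (1, 0) ≠ 0 := by
    intro h
    have := congrFun h 0
    rw [emb_zero] at this
    exact one_ne_zero this
  obtain ⟨π, hπdef⟩ : ∃ π, π = (w (emb (1, 0)))⁻¹ := ⟨_, rfl⟩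
  have hp0 : w (emb (1, 0)) ≠ 0 := by
    intro h
    have := hw.val _ hp1
    rw [h, map_zero] at this
    exact WithZero.exp_ne_zero this.symm
  have hπ : v π = WithZero.exp (-1 : ℤ) := by
    rw [hπdef, map_inv₀, hw.val _ hp1, ← WithZero.exp_neg]
  have hrho1 : rho v π (w (emb (1, 0))) = 1 := by
    rw [rho_eq (mem_of_le hπ (hw.le _)), ← map_one (IsLocalRing.residue v.valuationSubring)]
    congr 1
    apply Subtype.ext
    change w (emb (1, 0)) * π = 1
    rw [hπdef, mul_inv_cancel₀ hp0]
  obtain ⟨σ, hσ⟩ := exists_sign v π hπ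
  obtain ⟨r, hr⟩ : ∃ r, r = rw' hπ hw := ⟨_, rfl⟩
  have hrinj : Function.Injective r := by rw [hr]; exact rw_injective hπ hw
  obtain ⟨G, hG⟩ : ∃ G, G = GG hπ hw := ⟨_, rfl⟩
  have hGmem : ∀ x, x ∈ G ↔ ∃ ab, r (emb ab) = x := by
    intro x
    rw [hG, hr]
    rfl
  set SG : Set (Res v) := r '' (pairs.image emb : Finset E11) with hSGdef
  have hSGmem : ∀ ab, r (emb ab) ∈ SG ↔ ab ∈ pairs := by
    intro ab
    rw [hSGdef, Function.Injective.mem_set_image hrinj, Finset.mem_coe, Finset.mem_image]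
    constructor
    · rintro ⟨x, hx, h⟩
      rwa [← emb_injective h]
    · intro h
      exact ⟨ab, h, rfl⟩
  have hSG : SG ⊆ G := by
    rintro _ ⟨l, hl, rfl⟩
    rw [Finset.mem_coe, Finset.mem_image] at hl
    obtain ⟨ab, _, rfl⟩ := hl
    exact (hGmem _).mpr ⟨ab, rfl⟩
  have hSGhalf : ∀ x ∈ G, x ≠ 0 → (x ∈ SG ↔ -x ∉ SG) := by
    intro x hx hx0
    obtain ⟨ab, rfl⟩ := (hGmem x).mp hx
    have hab : ab ≠ 0 := by
      rintro rfl
      apply hx0
      rw [map_zero, map_zero]
    rw [← map_neg, ← map_neg, hSGmem, hSGmem]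
    exact pairs_half ab hab
  set TT : Set (Res v) := r '' T with hTTdef
  have hTT : ∀ x ∈ TT, ∀ y ∈ TT, x + y ∉ G := by
    rintro _ ⟨l, hl, rfl⟩ _ ⟨m, hm, rfl⟩ h
    obtain ⟨ab, hab⟩ := (hGmem _).mp h
    rw [← map_add] at hab
    have h1 := congrFun (hrinj hab) 10
    rw [emb_ten, Pi.add_apply, hT l hl, hT m hm] at h1
    revert h1
    decide
  obtain ⟨E, hTE, hEinv, hEG, hhalf⟩ := exists_half_invariant three_res G SG hSG hSGhalf TT hTT
  have hTS : TT ⊆ E ∪ SG := hTE.trans Set.subset_union_left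
  have hS' := half_flip hhalf hTS
  set S' : Set (Res v) := {x | (x ∈ E ∪ SG ∧ x ∉ TT) ∨ -x ∈ TT} with hS'def
  have h1SG : (1 : Res v) ∈ SG := by
    have : r (emb (1, 0)) = 1 := by rw [hr, rw_apply, hrho1]
    rw [← this, hSGmem]
    decide
  have h1S' : (1 : Res v) ∈ S' :=
    Or.inl ⟨Or.inr h1SG, fun h => hEG 1 (hTE h) (hSG h1SG)⟩
  have hm1S' : (-1 : Res v) ∉ S' := (hS' 1 one_ne_zero).mp h1S'
  -- signs of constants
  have hcm : ((σ.sgn (Units.map (algebraMap (ZMod 3) K : ZMod 3 →* K) (-1)) : (Res v)ˣ) : Res v) = -1 := by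
    have hval : ((Units.map (algebraMap (ZMod 3) K : ZMod 3 →* K) (-1) : Kˣ) : K) = -1 := by
      change algebraMap (ZMod 3) K (-1) = -1
      rw [map_neg, map_one]
    have hv1 : v ((Units.map (algebraMap (ZMod 3) K : ZMod 3 →* K) (-1) : Kˣ) : K) = 1 := by
      rw [hval, Valuation.map_neg, map_one]
    have hmem : ((Units.map (algebraMap (ZMod 3) K : ZMod 3 →* K) (-1) : Kˣ) : K) ∈ v.valuationSubring := by
      rw [Valuation.mem_valuationSubring_iff, hv1]
    rw [σ.sgn_unit _ hmem hv1, ← map_one (IsLocalRing.residue v.valuationSubring), ← map_neg]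
    congr 1
    apply Subtype.ext
    exact hval
  set S : Set (Res v)ˣ := {s | (s : Res v) ∈ S'} with hSdef
  have hrep : IsRepresentatives (ZMod 3) σ S := by
    intro y
    have hy0 : (y : Res v) ≠ 0 := y.ne_zero
    have hsg : σ.sgn (Units.map (algebraMap (ZMod 3) K : ZMod 3 →* K) (-1)) = -1 := by
      apply Units.ext
      rw [hcm]
      rfl
    by_cases hy : (y : Res v) ∈ S'
    · refine ⟨y, ⟨hy, 1, by simp⟩, ?_⟩
      rintro s ⟨hs, c, hc⟩
      rcases units_zmod3 c with rfl | rfl
      · rw [map_one, map_one, one_mul] at hc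
        exact hc.symm
      · exfalso
        rw [hsg] at hc
        have h2 : (s : Res v) = -(y : Res v) := by
          rw [hc]
          simp
        have h3 := (hS' _ hy0).mp hy
        apply h3
        rw [← h2]
        exact hs
    · refine ⟨-y, ⟨?_, -1, by rw [hsg]; simp⟩, ?_⟩
      · change ((-y : (Res v)ˣ) : Res v) ∈ S'
        rw [Units.val_neg]
        by_contra h
        exact hy ((hS' _ hy0).mpr h)
      · rintro s ⟨hs, c, hc⟩
        rcases units_zmod3 c with rfl | rfl
        · exfalso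
          rw [map_one, map_one, one_mul] at hc
          apply hy
          rw [hc]
          exact hs
        · rw [hsg] at hc
          rw [hc]
          simp
  refine ⟨σ, S, hrep, ?_⟩
  -- level zero
  have hlev0 : positive σ S 0 = {1} := by
    apply Set.eq_singleton_iff_unique_mem.mpr
    constructor
    · refine ⟨one_mem _, by simp, one_ne_zero, ?_⟩
      have h1 : Units.mk0 (1 : K) one_ne_zero = 1 := Units.ext rfl
      rw [h1, map_one]
      exact h1S'
    · rintro a ⟨ha1, ha2, ha3, ha4⟩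
      obtain ⟨c, rfl⟩ := const_of_regular hK v ha1 (by rw [ha2]; simp)
      have hc0 : c ≠ 0 := by
        rintro rfl
        exact ha3 (map_zero _)
      rcases units_zmod3 (Units.mk0 c hc0) with h | h
      · have h1 : c = 1 := congrArg Units.val h
        rw [h1, map_one]
      · exfalso
        have h1 : Units.mk0 (algebraMap (ZMod 3) K c) ha3 =
            Units.map (algebraMap (ZMod 3) K : ZMod 3 →* K) (-1) := by
          rw [← h]
          apply Units.ext
          rfl
        rw [h1] at ha4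
        apply hm1S'
        rw [← hcm]
        exact ha4
  have hps0 : powerSum σ S 17 0 = 1 := by
    rw [powerSum, hlev0, finsum_mem_singleton, one_pow]
  -- high levels
  have hpsn : ∀ n, 2 ≤ n → powerSum σ S 17 n = 0 := by
    intro n hn
    rw [powerSum, finsum_mem_eq_finite_toFinset_sum _ (positive_finite hK hv σ S n)]
    apply sum_zero_of_invariant hw
    intro a ha c
    rw [Set.Finite.mem_toFinset] at *
    apply positive_add σ S ha (nu_mem hw c)
    rw [ha.2.1]
    refine lt_of_le_of_lt (nu_le hw c) ?_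
    rw [WithZero.exp_lt_exp]
    exact_mod_cast hn
  -- level one
  have hlev1 : positive σ S 1 = {a | Level1 v a ∧ rho v π a ∈ S'} := by
    ext a
    constructor
    · rintro ⟨h1, h2, h3, h4⟩
      have h2' : v a = WithZero.exp (1 : ℤ) := h2
      refine ⟨⟨h1, h2'⟩, ?_⟩
      have hm : a * π ∈ v.valuationSubring := mem_of_le hπ h2'.le
      have h5 := hσ (Units.mk0 a h3) 1 (by rw [Units.val_mk0, zpow_one]; exact hm) h2'
      have h6 : rho v π a = ((σ.sgn (Units.mk0 a h3) : (Res v)ˣ) : Res v) := by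
        rw [h5, rho_eq hm]
        congr 1
        apply Subtype.ext
        change a * π = a * π ^ (1 : ℤ)
        rw [zpow_one]
      rw [h6]
      exact h4
    · rintro ⟨⟨h1, h2⟩, h4⟩
      have h3 : a ≠ 0 := by
        rintro rfl
        rw [map_zero] at h2
        exact WithZero.exp_ne_zero h2.symm
      refine ⟨h1, h2, h3, ?_⟩
      have hm : a * π ∈ v.valuationSubring := mem_of_le hπ h2.le
      have h5 := hσ (Units.mk0 a h3) 1 (by rw [Units.val_mk0, zpow_one]; exact hm) h2
      have h6 : rho v π a = ((σ.sgn (Units.mk0 a h3) : (Res v)ˣ) : Res v) := by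
        rw [h5, rho_eq hm]
        congr 1
        apply Subtype.ext
        change a * π = a * π ^ (1 : ℤ)
        rw [zpow_one]
      change ((σ.sgn (Units.mk0 a h3) : (Res v)ˣ) : Res v) ∈ S'
      rw [← h6]
      exact h4
  have hps1 : powerSum σ S 17 1 = sg v π S' := by
    rw [powerSum, hlev1]
    rfl
  -- evaluation of the level one sum
  have hd1 : Disjoint E SG := by
    rw [Set.disjoint_left]
    intro x hx hx'
    exact hEG x hx (hSG hx')
  have hsE : sg v π E = 0 := by
    apply sg_invariant hK hv hπ hw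
    · rw [← hG]; exact hEinv
    · rw [← hG]; exact hEG
  have hsSG : sg v π SG = ∑ ab ∈ pairs, ff (w (emb ab)) := by
    rw [hSGdef, hr, sg_image hK hv hπ hw, Finset.sum_image]
    · intro x _ y _ h
      exact emb_injective h
    · rw [Finset.mem_image]
      rintro ⟨x, hx, h⟩
      have : x = 0 := emb_injective (by rw [h, map_zero])
      subst this
      exact zero_notMem_pairs hx
  have hsTT : sg v π TT = ∑ l ∈ T, ff (w l) := by
    rw [hTTdef, hr, sg_image hK hv hπ hw]
    intro h
    have := hT 0 h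
    rw [Pi.zero_apply] at this
    exact zero_ne_one this
  have hs0 : sg v π (E ∪ SG) = sg v π E + sg v π SG := sg_union hK hv hd1
  have hs1 : sg v π (E ∪ SG) = sg v π ((E ∪ SG) \ TT) + sg v π TT := by
    rw [← sg_union hK hv Set.disjoint_sdiff_left, Set.sdiff_union_of_subset hTS]
  have hs2 : sg v π S' = sg v π ((E ∪ SG) \ TT) + sg v π {x | -x ∈ TT} := by
    rw [← sg_union hK hv]
    · rfl
    · rw [Set.disjoint_left]
      rintro x ⟨hx, _⟩ hx'
      have hx0 : x ≠ 0 := by
        rintro rfl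
        have h1 : -(0 : Res v) ∈ TT := hx'
        rw [neg_zero] at h1
        exact hEG 0 (hTE h1) (zero_mem _)
      exact (hhalf x hx0).mp hx (hTS hx')
  have hs3 : sg v π {x | -x ∈ TT} = - sg v π TT := sg_neg hK hv hπ TT
  have hfin : zetaValue σ S 17 = powerSum σ S 17 0 + powerSum σ S 17 1 := by
    rw [zetaValue, finsum_eq_sum_of_support_subset (s := Finset.range 2), Finset.sum_range_succ,
      Finset.sum_range_one]
    intro n hn
    rw [Function.mem_support] at hn
    simp only [Finset.coe_range, Set.mem_Iio]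
    by_contra h
    exact hn (hpsn n (by omega))
  rw [hfin, hps0, hps1, hs2, hs3]
  have h3 := three_alg K
  rw [← hsSG, ← hsTT] at hid
  linear_combination hid + hs0 - hs1 + hsE - sg v π TT * h3

end Pool.Agent.MP_b811f7_nt
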