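import Pool.Agent.MP_b811f7_nt.Basic

set_option autoImplicit false

namespace Pool.Agent.MP_b811f7_nt

variable {K : Type*} [Field K]

lemma pow_unit_aux (O : ValuationSubring K) (π : K) (hπ : π ∈ O) (hπ' : π⁻¹ ∉ O) (n : ℤ)
    (h : π ^ n ∈ O) : 0 ≤ n := by
  by_contra hn
  push Not at hn
  have hπ0 : π ≠ 0 := by
    rintro rfl
    rw [inv_zero] at hπ'
    exact hπ' O.zero_mem
  obtain ⟨k, hk⟩ : ∃ k : ℕ, n = -((k : ℤ) + 1) := ⟨(-n - 1).toNat, by omega⟩
  apply hπ'
  have h1 : π⁻¹ = π ^ n * π ^ k := by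
    rw [hk, ← zpow_natCast, ← zpow_add₀ hπ0]
    have : -((k : ℤ) + 1) + (k : ℤ) = -1 := by ring
    rw [this, zpow_neg_one]
  rw [h1]
  exact O.mul_mem _ _ h (pow_mem hπ k)

theorem exists_valuation (O : ValuationSubring K) (π : K) (hπ : π ∈ O) (hπ' : π⁻¹ ∉ O)
    (h : ∀ z : K, z ≠ 0 → ∃ n : ℤ, z * π ^ n ∈ O ∧ (z * π ^ n)⁻¹ ∈ O) :
    ∃ v : Valuation K (WithZero (Multiplicative ℤ)), v.valuationSubring = O ∧
      v π = WithZero.exp (-1 : ℤ) ∧
      ∀ z : K, ∀ n : ℤ, z ≠ 0 → z * π ^ n ∈ O → (z * π ^ n)⁻¹ ∈ O → v z = WithZero.exp n := by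
  classical
  have hπ0 : π ≠ 0 := by
    rintro rfl
    rw [inv_zero] at hπ'
    exact hπ' O.zero_mem
  choose! N hN1 hN2 using h
  have key : ∀ y : K, y ≠ 0 → ∀ m : ℤ, y * π ^ m ∈ O ↔ N y ≤ m := by
    intro y hy m
    constructor
    · intro hm
      have h1 : π ^ (m - N y) ∈ O := by
        have h2 : π ^ (m - N y) = (y * π ^ m) * (y * π ^ N y)⁻¹ := by
          rw [zpow_sub₀ hπ0]
          have := zpow_ne_zero (N y) hπ0
          field_simp
        rw [h2]
        exact O.mul_mem _ _ hm (hN2 y hy)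
      have := pow_unit_aux O π hπ hπ' _ h1
      omega
    · intro hm
      have h2 : y * π ^ m = (y * π ^ N y) * π ^ (m - N y) := by
        rw [zpow_sub₀ hπ0]
        have := zpow_ne_zero (N y) hπ0
        field_simp
      rw [h2]
      refine O.mul_mem _ _ (hN1 y hy) ?_
      obtain ⟨k, hk⟩ : ∃ k : ℕ, m - N y = (k : ℤ) := ⟨(m - N y).toNat, by omega⟩
      rw [hk, zpow_natCast]
      exact pow_mem hπ k
  have huniq : ∀ y : K, y ≠ 0 → ∀ m : ℤ, y * π ^ m ∈ O → (y * π ^ m)⁻¹ ∈ O → m = N y := by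
    intro y hy m h1 h2
    apply le_antisymm
    · have h3 : π ^ (N y - m) ∈ O := by
        have h2' : π ^ (N y - m) = (y * π ^ N y) * (y * π ^ m)⁻¹ := by
          rw [zpow_sub₀ hπ0]
          have := zpow_ne_zero m hπ0
          field_simp
        rw [h2']
        exact O.mul_mem _ _ (hN1 y hy) h2
      have := pow_unit_aux O π hπ hπ' _ h3
      omega
    · exact (key y hy m).mp h1
  let v : Valuation K (WithZero (Multiplicative ℤ)) :=
    { toFun := fun z => if z = 0 then 0 else WithZero.exp (N z)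
      map_zero' := if_pos rfl
      map_one' := by
        rw [if_neg one_ne_zero, ← WithZero.exp_zero]
        congr 1
        symm
        apply huniq 1 one_ne_zero 0
        · rw [zpow_zero, mul_one]; exact O.one_mem
        · rw [zpow_zero, mul_one, inv_one]; exact O.one_mem
      map_mul' := by
        intro x y
        by_cases hx : x = 0
        · simp [hx]
        by_cases hy : y = 0
        · simp [hy]
        rw [if_neg hx, if_neg hy, if_neg (mul_ne_zero hx hy), ← WithZero.exp_add]
        congr 1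
        symm
        have h1 : x * y * π ^ (N x + N y) = (x * π ^ N x) * (y * π ^ N y) := by
          rw [zpow_add₀ hπ0]
          ring
        apply huniq _ (mul_ne_zero hx hy)
        · rw [h1]; exact O.mul_mem _ _ (hN1 x hx) (hN1 y hy)
        · rw [h1, mul_inv]; exact O.mul_mem _ _ (hN2 x hx) (hN2 y hy)
      map_add_le_max' := by
        intro x y
        by_cases hx : x = 0
        · simp [hx]
        by_cases hy : y = 0
        · simp [hy]
        by_cases hxy : x + y = 0
        · rw [if_pos hxy]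
          exact zero_le
        rw [if_neg hx, if_neg hy, if_neg hxy]
        have h1 : N (x + y) ≤ max (N x) (N y) := by
          rw [← key _ hxy, add_mul]
          apply O.add_mem
          · rw [key x hx]; exact le_max_left _ _
          · rw [key y hy]; exact le_max_right _ _
        rcases le_max_iff.mp h1 with h2 | h2
        · exact le_max_of_le_left (WithZero.exp_le_exp.mpr h2)
        · exact le_max_of_le_right (WithZero.exp_le_exp.mpr h2) }
  have hv : ∀ z : K, z ≠ 0 → v z = WithZero.exp (N z) := fun z hz => if_neg hz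
  refine ⟨v, ?_, ?_, ?_⟩
  · ext z
    rw [Valuation.mem_valuationSubring_iff]
    by_cases hz : z = 0
    · rw [hz, map_zero]
      exact ⟨fun _ => O.zero_mem, fun _ => zero_le⟩
    rw [hv z hz, ← WithZero.exp_zero, WithZero.exp_le_exp, ← key z hz 0, zpow_zero, mul_one]
  · rw [hv π hπ0]
    congr 1
    symm
    apply huniq π hπ0
    · rw [zpow_neg_one, mul_inv_cancel₀ hπ0]; exact O.one_mem
    · rw [zpow_neg_one, mul_inv_cancel₀ hπ0, inv_one]; exact O.one_mem
  · intro z n hz h1 h2
    rw [hv z hz, huniq z hz n h1 h2]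

theorem exists_sign (v : Valuation K (WithZero (Multiplicative ℤ))) (π : K)
    (hπ : v π = WithZero.exp (-1 : ℤ)) :
    ∃ σ : SignFunction v, ∀ (z : Kˣ) (n : ℤ) (h : (z : K) * π ^ n ∈ v.valuationSubring),
      v (z : K) = WithZero.exp n →
      ((σ.sgn z : (Res v)ˣ) : Res v) = IsLocalRing.residue v.valuationSubring ⟨(z : K) * π ^ n, h⟩ := by
  classical
  have hπ0 : π ≠ 0 := by
    rintro rfl
    rw [map_zero] at hπ
    exact WithZero.exp_ne_zero hπ.symm
  have hvz : ∀ z : Kˣ, v (z : K) ≠ 0 := fun z => (Valuation.ne_zero_iff _).mpr z.ne_zero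
  let L : Kˣ → ℤ := fun z => WithZero.log (v (z : K))
  have hL : ∀ z : Kˣ, v (z : K) = WithZero.exp (L z) := fun z => (WithZero.exp_log (hvz z)).symm
  have hL1 : ∀ (z : Kˣ) (n : ℤ), v (z : K) = WithZero.exp n → L z = n := by
    intro z n hn
    change WithZero.log (v (z : K)) = n
    rw [hn, WithZero.log_exp]
  have hLmul : ∀ z w : Kˣ, L (z * w) = L z + L w := by
    intro z w
    apply hL1
    rw [Units.val_mul, map_mul, hL z, hL w, WithZero.exp_add]
  have hvp : ∀ n : ℤ, v (π ^ n) = WithZero.exp (-n) := by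
    intro n
    rw [map_zpow₀, hπ, ← WithZero.exp_zsmul]
    simp
  have hval : ∀ z : Kˣ, v ((z : K) * π ^ L z) = 1 := by
    intro z
    rw [map_mul, hvp, hL z, ← WithZero.exp_add]
    simp
  have hmem : ∀ z : Kˣ, (z : K) * π ^ L z ∈ v.valuationSubring := by
    intro z
    rw [Valuation.mem_valuationSubring_iff, hval]
  have hmem' : ∀ z : Kˣ, ((z : K) * π ^ L z)⁻¹ ∈ v.valuationSubring := by
    intro z
    rw [Valuation.mem_valuationSubring_iff, map_inv₀, hval, inv_one]
  have hne : ∀ z : Kˣ, (z : K) * π ^ L z ≠ 0 := fun z => mul_ne_zero z.ne_zero (zpow_ne_zero _ hπ0)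
  let φ : Kˣ →* (v.valuationSubring)ˣ :=
    { toFun := fun z => ⟨⟨_, hmem z⟩, ⟨_, hmem' z⟩, Subtype.ext (mul_inv_cancel₀ (hne z)),
        Subtype.ext (inv_mul_cancel₀ (hne z))⟩
      map_one' := by
        apply Units.ext
        apply Subtype.ext
        change ((1 : Kˣ) : K) * π ^ L 1 = 1
        have : L 1 = 0 := hL1 1 0 (by simp)
        rw [this, zpow_zero, mul_one, Units.val_one]
      map_mul' := by
        intro z w
        apply Units.ext
        apply Subtype.ext
        change ((z * w : Kˣ) : K) * π ^ L (z * w) = ((z : K) * π ^ L z) * ((w : K) * π ^ L w)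
        rw [hLmul, zpow_add₀ hπ0, Units.val_mul]
        ring }
  refine ⟨⟨(Units.map (IsLocalRing.residue v.valuationSubring : v.valuationSubring →* Res v)).comp φ, ?_⟩, ?_⟩
  · intro u h hu
    have h1 : L u = 0 := hL1 u 0 (by rw [hu]; simp)
    change IsLocalRing.residue v.valuationSubring ⟨(u : K) * π ^ L u, hmem u⟩ = _
    congr 1
    apply Subtype.ext
    change (u : K) * π ^ L u = u
    rw [h1, zpow_zero, mul_one]
  · intro z n h hz
    have h1 : L z = n := hL1 z n hz
    subst h1
    rfl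

end Pool.Agent.MP_b811f7_nt
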