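import Pool.Agent.MP_b811f7_nt.Val

set_option autoImplicit false

namespace Pool.Agent.MP_b811f7_nt

open Polynomial

section Residue

variable {κ : Type*} [Field κ] (ψ : (ZMod 3)[X] →+* κ) (η : κ)

lemma not_dvd_qB : ¬ qW ∣ qB := by
  intro h
  have := natDegree_le_of_dvd h qB_ne_zero
  rw [natDegree_qW, natDegree_qB] at this
  omega

lemma psi_qW : ψ qW = ψ X ^ 5 + 2 * ψ X + 1 := by
  rw [qW]; simp only [map_add, map_mul, map_pow, map_one, map_ofNat]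
lemma psi_qB : ψ qB = ψ X ^ 3 + 2 * ψ X + 1 := by
  rw [qB]; simp only [map_add, map_mul, map_pow, map_one, map_ofNat]
lemma psi_qA : ψ qA = ψ X ^ 3 + 2 * ψ X ^ 2 + 1 := by
  rw [qA]; simp only [map_add, map_mul, map_pow, map_one, map_ofNat]

lemma psi_ne_zero (hW : ψ qW = 0) {P : (ZMod 3)[X]} (hP : ¬ qW ∣ P) : ψ P ≠ 0 := by
  intro h
  obtain ⟨u, v, huv⟩ := (irreducible_qW.coprime_iff_not_dvd).mpr hP
  have h1 := congrArg ψ huv
  rw [map_add, map_mul, map_mul, hW, h, mul_zero, mul_zero, add_zero, map_one] at h1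
  exact zero_ne_one h1

include ψ in
lemma char_kappa : CharP κ 3 :=
  charP_of_injective_ringHom (f := ψ.comp C) (RingHom.injective _) 3

lemma psi_frob (hW : ψ qW = 0) (P : (ZMod 3)[X]) : ψ P ^ 243 = ψ P := by
  have := char_kappa ψ
  have h3 : (3 : κ) = 0 := three_K ψ
  have hx : ψ X ^ 5 + 2 * ψ X + 1 = 0 := by rw [← psi_qW, hW]
  have hX : ψ X ^ 243 = ψ X := by
    generalize ψ X = x at *
    have h9 : x ^ 9 = -1 + x - x ^ 4 := by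
      linear_combination (-2 + x ^ 4) * hx + (1 + x) * h3
    have h27 : x ^ 27 = -1 - x ^ 2 - x ^ 4 := by
      have : x ^ 27 = (x ^ 9) ^ 3 := by ring
      rw [this, h9]
      linear_combination (-3 * x + x ^ 2 - x ^ 3 + 3 * x ^ 4 - x ^ 7) * hx + (2 * x + x ^ 2 - x ^ 4) * h3
    have h81 : x ^ 81 = -1 + x + x ^ 2 - x ^ 3 - x ^ 4 := by
      have : x ^ 81 = (x ^ 27) ^ 3 := by ring
      rw [this, h27]
      linear_combination (3 - x + x ^ 2 - 4 * x ^ 3 - 3 * x ^ 5 - x ^ 7) * hx + (-1 - 2 * x - x ^ 2 + x ^ 3 + x ^ 4) * h3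
    have : x ^ 243 = (x ^ 81) ^ 3 := by ring
    rw [this, h81]
    linear_combination (-4 - 2 * x - 5 * x ^ 2 + 5 * x ^ 3 + 8 * x ^ 4 - 3 * x ^ 6 - x ^ 7) * hx + (1 + 4 * x + 3 * x ^ 2 - x ^ 3 - 5 * x ^ 4) * h3
  have h1 : (iterateFrobenius κ 3 5).comp ψ = ψ := by
    apply Polynomial.ringHom_ext'
    · exact Subsingleton.elim _ _
    · rw [RingHom.comp_apply, iterateFrobenius_def]
      exact hX
  have h2 : iterateFrobenius κ 3 5 (ψ P) = ψ P := congrArg (fun f : (ZMod 3)[X] →+* κ => f P) h1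
  rw [iterateFrobenius_def] at h2
  exact h2

lemma eta_frob (hW : ψ qW = 0) (hrel : ψ qB * (η ^ 3 - η) = ψ qA) : η ^ 243 = η + 1 := by
  have := char_kappa ψ
  have h3 : (3 : κ) = 0 := three_K ψ
  have hx : ψ X ^ 5 + 2 * ψ X + 1 = 0 := by rw [← psi_qW, hW]
  have hB0 : ψ qB ≠ 0 := psi_ne_zero ψ hW not_dvd_qB
  have hB := psi_qB ψ
  have hA := psi_qA ψ
  rw [hB] at hB0
  rw [hB, hA] at hrel
  generalize ψ X = x at *
  have e1 : η ^ 3 = η + (1 + x - x ^ 2 - x ^ 4) := by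
    apply mul_left_cancel₀ hB0
    linear_combination hrel - ((-3 - x ^ 2) * hx + (1 + 3 * x) * h3)
  have c1 : (1 + x - x ^ 2 - x ^ 4) ^ 3 = 1 + x + x ^ 2 - x ^ 4 := by
    linear_combination (-6 + 8 * x + 7 * x ^ 2 + 2 * x ^ 3 + 3 * x ^ 4 - 3 * x ^ 5 - x ^ 7) * hx + (2 + 2 * x - 8 * x ^ 2 - 7 * x ^ 3 - 3 * x ^ 4) * h3
  have c2 : (1 + x + x ^ 2 - x ^ 4) ^ 3 = 1 - x - x ^ 4 := by
    linear_combination (-12 - 14 * x - 5 * x ^ 2 + 2 * x ^ 3 + 3 * x ^ 4 + 3 * x ^ 5 - x ^ 7) * hx + (4 + 14 * x + 13 * x ^ 2 + 5 * x ^ 3 - x ^ 4) * h3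
  have c3 : (1 - x - x ^ 4) ^ 3 = 1 - x ^ 2 + x ^ 3 - x ^ 4 := by
    linear_combination (12 - 3 * x + x ^ 2 + 5 * x ^ 3 - 3 * x ^ 4 - x ^ 7) * hx + (-4 - 8 * x + 3 * x ^ 2 - 3 * x ^ 3 - 3 * x ^ 4) * h3
  have c4 : (1 - x ^ 2 + x ^ 3 - x ^ 4) ^ 3 = -x + x ^ 2 - x ^ 3 + x ^ 4 := by
    linear_combination (-14 + 17 * x - 8 * x ^ 2 - x ^ 3 + 7 * x ^ 4 - 6 * x ^ 5 + 3 * x ^ 6 - x ^ 7) * hx + (5 + 4 * x - 10 * x ^ 2 + 7 * x ^ 3 - 2 * x ^ 4) * h3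
  have e2 : η ^ 9 = η + (1 + x - x ^ 2 - x ^ 4) + (1 + x + x ^ 2 - x ^ 4) := by
    have : η ^ 9 = (η ^ 3) ^ 3 := by ring
    rw [this, e1, add_pow_char, e1, c1]
  have e3 : η ^ 27 = η + (1 + x - x ^ 2 - x ^ 4) + (1 + x + x ^ 2 - x ^ 4) + (1 - x - x ^ 4) := by
    have : η ^ 27 = (η ^ 9) ^ 3 := by ring
    rw [this, e2, add_pow_char, add_pow_char, e1, c1, c2]
  have e4 : η ^ 81 = η + (1 + x - x ^ 2 - x ^ 4) + (1 + x + x ^ 2 - x ^ 4) + (1 - x - x ^ 4)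
      + (1 - x ^ 2 + x ^ 3 - x ^ 4) := by
    have : η ^ 81 = (η ^ 27) ^ 3 := by ring
    rw [this, e3, add_pow_char, add_pow_char, add_pow_char, e1, c1, c2, c3]
  have e5 : η ^ 243 = η + (1 + x - x ^ 2 - x ^ 4) + (1 + x + x ^ 2 - x ^ 4) + (1 - x - x ^ 4)
      + (1 - x ^ 2 + x ^ 3 - x ^ 4) + (-x + x ^ 2 - x ^ 3 + x ^ 4) := by
    have : η ^ 243 = (η ^ 81) ^ 3 := by ring
    rw [this, e4, add_pow_char, add_pow_char, add_pow_char, add_pow_char, e1, c1, c2, c3, c4]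
  rw [e5]
  linear_combination (1 - x ^ 4) * h3

include ψ in
lemma frob_add (a b : κ) : (a + b) ^ 243 = a ^ 243 + b ^ 243 := by
  have := char_kappa ψ
  have := add_pow_char_pow (R := κ) (p := 3) (n := 5) a b
  exact this

lemma resid_indep (hW : ψ qW = 0) (hrel : ψ qB * (η ^ 3 - η) = ψ qA) (P0 P1 P2 : (ZMod 3)[X])
    (h : ψ P0 + ψ P1 * η + ψ P2 * η ^ 2 = 0) : ψ P0 = 0 ∧ ψ P1 = 0 ∧ ψ P2 = 0 := by
  have h3 : (3 : κ) = 0 := three_K ψ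
  have hη := eta_frob ψ η hW hrel
  have e1 : ψ P0 + ψ P1 * (η + 1) + ψ P2 * (η + 1) ^ 2 = 0 := by
    have := congrArg (fun z => z ^ 243) h
    rw [frob_add ψ, frob_add ψ, mul_pow, mul_pow, psi_frob ψ hW, psi_frob ψ hW, psi_frob ψ hW,
      ← pow_mul, mul_comm 2 243, pow_mul, hη] at this
    rw [this]
    norm_num
  have e2 : ψ P0 + ψ P1 * (η + 2) + ψ P2 * (η + 2) ^ 2 = 0 := by
    have := congrArg (fun z => z ^ 243) e1
    rw [frob_add ψ, frob_add ψ, mul_pow, mul_pow, psi_frob ψ hW, psi_frob ψ hW, psi_frob ψ hW,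
      ← pow_mul, mul_comm 2 243, pow_mul, frob_add ψ, hη] at this
    have h4 : η + 1 + 1 ^ 243 = η + 2 := by ring
    rw [h4] at this
    rw [this]
    norm_num
  have f2 : ψ P2 = 0 := by linear_combination ψ P2 * h3 - (h - 2 * e1 + e2)
  have f1 : ψ P1 = 0 := by linear_combination e1 - h - (2 * η + 1) * f2
  have f0 : ψ P0 = 0 := by linear_combination h - η * f1 - η ^ 2 * f2
  exact ⟨f0, f1, f2⟩

lemma resid_frob (hW : ψ qW = 0) (hrel : ψ qB * (η ^ 3 - η) = ψ qA) (P0 P1 P2 d : (ZMod 3)[X])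
    (u : κ) (hu : u = (ψ P0 + ψ P1 * η + ψ P2 * η ^ 2) / ψ d) :
    u ^ (3 ^ 15) = u := by
  have h3 : (3 : κ) = 0 := three_K ψ
  have hη := eta_frob ψ η hW hrel
  have key : ∀ e : κ, e ^ 243 = e → ((ψ P0 + ψ P1 * (η + e) + ψ P2 * (η + e) ^ 2) / ψ d) ^ 243
      = (ψ P0 + ψ P1 * (η + (e + 1)) + ψ P2 * (η + (e + 1)) ^ 2) / ψ d := by
    intro e he
    rw [div_pow, psi_frob ψ hW]
    congr 1
    rw [frob_add ψ, frob_add ψ, mul_pow, mul_pow, psi_frob ψ hW, psi_frob ψ hW, psi_frob ψ hW,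
      ← pow_mul, mul_comm 2 243, pow_mul, frob_add ψ, hη, he]
    ring
  have h1 : (1 : κ) ^ 243 = 1 := one_pow _
  have h2 : (1 + 1 : κ) ^ 243 = 1 + 1 := by rw [frob_add ψ, h1]
  have h0 : (0 : κ) ^ 243 = 0 := by norm_num
  have e15 : (3 : ℕ) ^ 15 = 243 * (243 * 243) := by norm_num
  have hu' : u = (ψ P0 + ψ P1 * (η + 0) + ψ P2 * (η + 0) ^ 2) / ψ d := by rw [hu, add_zero]
  rw [e15, pow_mul, pow_mul, hu', key 0 h0, zero_add, key 1 h1, key (1 + 1) h2]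
  have : (1 : κ) + 1 + 1 = 0 := by linear_combination h3
  rw [this]

end Residue

end Pool.Agent.MP_b811f7_nt
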