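import Pool.Agent.MP_b811f7_nt.Above

set_option autoImplicit false

namespace Pool.Agent.MP_b811f7_nt

open Polynomial

variable {K : Type*} [Field K] {φ : (ZMod 3)[X] →+* K} {y : K}

noncomputable def P0 (l : Fin 11 → ZMod 3) : (ZMod 3)[X] :=
  C (l 0) + X * (C (l 1) + X * (C (l 2) + X * (C (l 3) + X * C (l 4))))
noncomputable def P1 (l : Fin 11 → ZMod 3) : (ZMod 3)[X] := C (l 5) + X * (C (l 6) + X * C (l 7))
noncomputable def P2 (l : Fin 11 → ZMod 3) : (ZMod 3)[X] := C (l 8) + X * (C (l 9) + X * C (l 10))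

/-- the numerator -/
noncomputable def numl (φ : (ZMod 3)[X] →+* K) (y : K) (l : Fin 11 → ZMod 3) : K :=
  φ (P0 l) + φ (P1 l) * (φ qB * y) + φ (P2 l) * (φ qB * y ^ 2)

/-- the elements of the Riemann-Roch space -/
noncomputable def wl (φ : (ZMod 3)[X] →+* K) (y : K) (l : Fin 11 → ZMod 3) : K :=
  numl φ y l / φ qW

lemma P0_add (l m : Fin 11 → ZMod 3) : P0 (l + m) = P0 l + P0 m := by
  simp only [P0, Pi.add_apply, map_add]; ring
lemma P1_add (l m : Fin 11 → ZMod 3) : P1 (l + m) = P1 l + P1 m := by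
  simp only [P1, Pi.add_apply, map_add]; ring
lemma P2_add (l m : Fin 11 → ZMod 3) : P2 (l + m) = P2 l + P2 m := by
  simp only [P2, Pi.add_apply, map_add]; ring

lemma numl_add (l m : Fin 11 → ZMod 3) : numl φ y (l + m) = numl φ y l + numl φ y m := by
  simp only [numl, P0_add, P1_add, P2_add, map_add]; ring

lemma wl_add (l m : Fin 11 → ZMod 3) : wl φ y (l + m) = wl φ y l + wl φ y m := by
  rw [wl, numl_add, add_div]; rfl

lemma coeffs4 (a b c d e : ZMod 3) (h : qW ∣ (C a + X * (C b + X * (C c + X * (C d + X * C e))) : (ZMod 3)[X])) :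
    a = 0 ∧ b = 0 ∧ c = 0 ∧ d = 0 ∧ e = 0 := by
  have hz : (C a + X * (C b + X * (C c + X * (C d + X * C e))) : (ZMod 3)[X]) = 0 := by
    apply eq_zero_of_dvd_of_natDegree_lt h
    rw [natDegree_qW]
    have : (C a + X * (C b + X * (C c + X * (C d + X * C e))) : (ZMod 3)[X]).natDegree ≤ 4 := by
      compute_degree
    omega
  have h0 := congrArg (fun p : (ZMod 3)[X] => p.coeff 0) hz
  have h1 := congrArg (fun p : (ZMod 3)[X] => p.coeff 1) hz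
  have h2 := congrArg (fun p : (ZMod 3)[X] => p.coeff 2) hz
  have h3 := congrArg (fun p : (ZMod 3)[X] => p.coeff 3) hz
  have h4 := congrArg (fun p : (ZMod 3)[X] => p.coeff 4) hz
  simp [coeff_X_mul, coeff_C_succ, coeff_C] at h0 h1 h2 h3 h4
  exact ⟨h0, h1, h2, h3, h4⟩

lemma not_dvd_all {l : Fin 11 → ZMod 3} (hl : l ≠ 0) :
    ¬ (qW ∣ P0 l ∧ qW ∣ P1 l * qB ∧ qW ∣ P2 l * qB) := by
  rintro ⟨h0, h1, h2⟩
  have h1' := (prime_qW.dvd_or_dvd h1).resolve_right not_dvd_qB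
  have h2' := (prime_qW.dvd_or_dvd h2).resolve_right not_dvd_qB
  obtain ⟨a0, a1, a2, a3, a4⟩ := coeffs4 _ _ _ _ _ h0
  have e1 : P1 l = C (l 5) + X * (C (l 6) + X * (C (l 7) + X * (C 0 + X * C 0))) := by
    simp [P1]
  have e2 : P2 l = C (l 8) + X * (C (l 9) + X * (C (l 10) + X * (C 0 + X * C 0))) := by
    simp [P2]
  rw [e1] at h1'
  rw [e2] at h2'
  obtain ⟨a5, a6, a7, _, _⟩ := coeffs4 _ _ _ _ _ h1'
  obtain ⟨a8, a9, a10, _, _⟩ := coeffs4 _ _ _ _ _ h2'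
  apply hl
  funext i
  fin_cases i <;> assumption

lemma numl_eq (l : Fin 11 → ZMod 3) : numl φ y l = φ (P0 l) + φ (P1 l * qB) * y + φ (P2 l * qB) * y ^ 2 := by
  simp only [numl, map_mul]; ring

lemma numl_unit (h : Setup φ y) {O : ValuationSubring K} (hO : Above φ O) {l : Fin 11 → ZMod 3} (hl : l ≠ 0) :
    U O (numl φ y l) := by
  rw [numl_eq]
  exact comb_unit h hO (not_dvd_all hl)

/-- elements of the space are regular where `x` is regular and `qW` is a unit -/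
lemma wl_mem_fin (h : Setup φ y) {O : ValuationSubring K} (hx : φ X ∈ O) (hW : (φ qW)⁻¹ ∈ O)
    (l : Fin 11 → ZMod 3) : wl φ y l ∈ O := by
  rw [wl, div_eq_mul_inv]
  refine O.mul_mem _ _ ?_ hW
  have hP := phi_mem O hx
  exact O.add_mem _ _ (O.add_mem _ _ (hP _) (O.mul_mem _ _ (hP _) (Y_mem h O hx)))
    (O.mul_mem _ _ (hP _) (Z_mem h O hx))

lemma pow_div_mem (h : Setup φ y) {O : ValuationSubring K} (hx : φ X ∉ O) (i : ℕ) (hi : i ≤ 5) :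
    φ X ^ i / φ qW ∈ O := by
  have hx0 : φ X ≠ 0 := by
    intro h0
    rw [h0] at hx
    exact hx O.zero_mem
  have ht : (φ X)⁻¹ ∈ O := (O.mem_or_inv_mem _).resolve_left hx
  have ht' : ((φ X)⁻¹)⁻¹ ∉ O := by rwa [inv_inv]
  have h2 : (2 : K) ∈ O := natCast_mem O 2
  obtain ⟨h3, h4⟩ := unit_add O ht' (s := 2 * (φ X)⁻¹ ^ 3 + (φ X)⁻¹ ^ 4)
    (O.add_mem _ _ (O.mul_mem _ _ h2 (pow_mem ht 3)) (pow_mem ht 4))
  have hW := phi_ne_zero h qW_ne_zero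
  have e : φ X ^ i / φ qW = (φ X)⁻¹ ^ (5 - i) * (1 + (φ X)⁻¹ * (2 * (φ X)⁻¹ ^ 3 + (φ X)⁻¹ ^ 4))⁻¹ := by
    have e1 : φ qW = φ X ^ 5 * (1 + (φ X)⁻¹ * (2 * (φ X)⁻¹ ^ 3 + (φ X)⁻¹ ^ 4)) := by
      rw [psi_qW]
      field_simp
      ring
    have e2 : φ X ^ 5 = φ X ^ i * φ X ^ (5 - i) := by rw [← pow_add]; congr 1; omega
    rw [e1, e2]
    generalize 1 + (φ X)⁻¹ * (2 * (φ X)⁻¹ ^ 3 + (φ X)⁻¹ ^ 4) = u at *
    rw [inv_pow]
    field_simp
  rw [e]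
  exact O.mul_mem _ _ (pow_mem ht _) h4

lemma y_mem_inf (h : Setup φ y) {O : ValuationSubring K} (hx : φ X ∉ O) : y ∈ O := by
  have hx0 : φ X ≠ 0 := by
    intro h0
    rw [h0] at hx
    exact hx O.zero_mem
  have ht : (φ X)⁻¹ ∈ O := (O.mem_or_inv_mem _).resolve_left hx
  have ht' : ((φ X)⁻¹)⁻¹ ∉ O := by rwa [inv_inv]
  have h2 : (2 : K) ∈ O := natCast_mem O 2
  obtain ⟨h3, h4⟩ := unit_add O ht' (s := 2 * (φ X)⁻¹ + (φ X)⁻¹ ^ 2)
    (O.add_mem _ _ (O.mul_mem _ _ h2 ht) (pow_mem ht 2))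
  rcases O.mem_or_inv_mem y with h1 | h1
  · exact h1
  rcases eq_or_ne y 0 with h0 | h0
  · rw [h0]; exact O.zero_mem
  -- `f` in `O`
  set f := (1 + 2 * (φ X)⁻¹ + (φ X)⁻¹ ^ 3) * (1 + (φ X)⁻¹ * (2 * (φ X)⁻¹ + (φ X)⁻¹ ^ 2))⁻¹ with hf
  have hfO : f ∈ O :=
    O.mul_mem _ _ (O.add_mem _ _ (O.add_mem _ _ O.one_mem (O.mul_mem _ _ h2 ht)) (pow_mem ht 3)) h4
  have hrel : y ^ 3 - y = f := by
    have e1 : φ qB = φ X ^ 3 * (1 + (φ X)⁻¹ * (2 * (φ X)⁻¹ + (φ X)⁻¹ ^ 2)) := by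
      rw [psi_qB]
      field_simp
      ring
    have e2 : φ qA = φ X ^ 3 * (1 + 2 * (φ X)⁻¹ + (φ X)⁻¹ ^ 3) := by
      rw [psi_qA]
      field_simp
    have e3 := h.rel
    rw [e1, e2, mul_assoc] at e3
    have e4 := mul_left_cancel₀ (pow_ne_zero 3 hx0) e3
    rw [hf, ← e4]
    generalize 1 + (φ X)⁻¹ * (2 * (φ X)⁻¹ + (φ X)⁻¹ ^ 2) = u at *
    field_simp
  have e5 : y = y⁻¹ + f * (y⁻¹ * y⁻¹) := by
    have e6 := mul_inv_cancel₀ h0
    generalize y⁻¹ = z at *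
    linear_combination (z * z) * hrel - (y ^ 2 * z + y - z) * e6
  rw [e5]
  exact O.add_mem _ _ h1 (O.mul_mem _ _ hfO (O.mul_mem _ _ h1 h1))

lemma const_phi_mem (O : ValuationSubring K) (c : ZMod 3) : φ (C c) ∈ O := by
  rw [phi_C]
  exact natCast_mem O _

lemma wl_mem_inf (h : Setup φ y) {O : ValuationSubring K} (hx : φ X ∉ O) (l : Fin 11 → ZMod 3) :
    wl φ y l ∈ O := by
  have hp := pow_div_mem h hx
  have hy := y_mem_inf h hx
  have hc := fun c => const_phi_mem (φ := φ) O c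
  have h2 : (2 : K) ∈ O := natCast_mem O 2
  have e : wl φ y l =
      (φ (C (l 0)) * (φ X ^ 0 / φ qW) + φ (C (l 1)) * (φ X ^ 1 / φ qW) + φ (C (l 2)) * (φ X ^ 2 / φ qW) +
        φ (C (l 3)) * (φ X ^ 3 / φ qW) + φ (C (l 4)) * (φ X ^ 4 / φ qW)) +
      (φ (C (l 5)) * (φ X ^ 3 / φ qW + 2 * (φ X ^ 1 / φ qW) + φ X ^ 0 / φ qW) +
        φ (C (l 6)) * (φ X ^ 4 / φ qW + 2 * (φ X ^ 2 / φ qW) + φ X ^ 1 / φ qW) +
        φ (C (l 7)) * (φ X ^ 5 / φ qW + 2 * (φ X ^ 3 / φ qW) + φ X ^ 2 / φ qW)) * y +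
      (φ (C (l 8)) * (φ X ^ 3 / φ qW + 2 * (φ X ^ 1 / φ qW) + φ X ^ 0 / φ qW) +
        φ (C (l 9)) * (φ X ^ 4 / φ qW + 2 * (φ X ^ 2 / φ qW) + φ X ^ 1 / φ qW) +
        φ (C (l 10)) * (φ X ^ 5 / φ qW + 2 * (φ X ^ 3 / φ qW) + φ X ^ 2 / φ qW)) * y ^ 2 := by
    rw [wl, numl, P0, P1, P2, psi_qB]
    simp only [map_add, map_mul]
    ring
  rw [e]
  have g := fun (i j k : ℕ) (hi : i ≤ 5) (hj : j ≤ 5) (hk : k ≤ 5) =>
    O.add_mem _ _ (O.add_mem _ _ (hp i hi) (O.mul_mem _ _ h2 (hp j hj))) (hp k hk)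
  refine O.add_mem _ _ (O.add_mem _ _ ?_ (O.mul_mem _ _ ?_ hy)) (O.mul_mem _ _ ?_ (pow_mem hy 2))
  · exact O.add_mem _ _ (O.add_mem _ _ (O.add_mem _ _ (O.add_mem _ _ (O.mul_mem _ _ (hc _) (hp 0 (by omega)))
      (O.mul_mem _ _ (hc _) (hp 1 (by omega)))) (O.mul_mem _ _ (hc _) (hp 2 (by omega))))
      (O.mul_mem _ _ (hc _) (hp 3 (by omega)))) (O.mul_mem _ _ (hc _) (hp 4 (by omega)))
  · exact O.add_mem _ _ (O.add_mem _ _ (O.mul_mem _ _ (hc _) (g 3 1 0 (by omega) (by omega) (by omega)))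
      (O.mul_mem _ _ (hc _) (g 4 2 1 (by omega) (by omega) (by omega))))
      (O.mul_mem _ _ (hc _) (g 5 3 2 (by omega) (by omega) (by omega)))
  · exact O.add_mem _ _ (O.add_mem _ _ (O.mul_mem _ _ (hc _) (g 3 1 0 (by omega) (by omega) (by omega)))
      (O.mul_mem _ _ (hc _) (g 4 2 1 (by omega) (by omega) (by omega))))
      (O.mul_mem _ _ (hc _) (g 5 3 2 (by omega) (by omega) (by omega)))

/-- The place of degree 15. -/
theorem exists_place (h : Setup φ y) : ∃ v : Valuation K (WithZero (Multiplicative ℤ)),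
    Function.Surjective v ∧ Finite (Res v) ∧ v (φ qW) = WithZero.exp (-1 : ℤ) ∧
    (∀ l, wl φ y l ∈ regularRing v) ∧ (∀ l, l ≠ 0 → v (wl φ y l) = WithZero.exp (1 : ℤ)) := by
  obtain ⟨O, hO⟩ := exists_above h
  have hW0 := phi_ne_zero h qW_ne_zero
  obtain ⟨v, hvO, hvW, hv⟩ := exists_valuation O (φ qW) (phi_mem O hO.hx _) hO.hW (fun z hz => by
    obtain ⟨n, hn⟩ := unit_form h hz
    exact ⟨n, (hn O hO).2.1, (hn O hO).2.2⟩)
  refine ⟨v, ?_, ?_, hvW, ?_, ?_⟩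
  · intro g
    rcases eq_or_ne g 0 with rfl | hg
    · exact ⟨0, map_zero v⟩
    · refine ⟨φ qW ^ (-WithZero.log g), ?_⟩
      rw [map_zpow₀, hvW, ← WithZero.exp_zsmul]
      simp [WithZero.exp_log hg]
  · subst hvO
    exact finite_residue h hO
  · intro l O' hO'1 hO'2
    by_cases hx : φ X ∈ O'
    · by_cases hW : (φ qW)⁻¹ ∈ O'
      · exact wl_mem_fin h hx hW l
      · exfalso
        apply hO'2
        rw [hvO]
        exact above_unique h ⟨hx, hW⟩ hO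
    · exact wl_mem_inf h hx l
  · intro l hl
    have hu := numl_unit h hO hl
    have e : wl φ y l * φ qW ^ (1 : ℤ) = numl φ y l := by
      rw [wl, zpow_one, div_mul_cancel₀ _ hW0]
    apply hv
    · exact div_ne_zero hu.1 hW0
    · rw [e]; exact hu.2.1
    · rw [e]; exact hu.2.2

end Pool.Agent.MP_b811f7_nt
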