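import Pool.Agent.MP_b811f7_nt.Place

set_option autoImplicit false

namespace Pool.Agent.MP_b811f7_nt

variable {K : Type*} [Field K] [Algebra (ZMod 3) K]

variable (K) in
lemma three_alg : (3 : K) = 0 := by
  have h : (3 : ZMod 3) = 0 := by decide
  have := congrArg (algebraMap (ZMod 3) K) h
  rwa [map_ofNat, map_zero] at this

/-- the sum over a translate of the constants -/
noncomputable def ff (z : K) : K := ∑ c : ZMod 3, (z + algebraMap (ZMod 3) K c) ^ 17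

omit [Algebra (ZMod 3) K] in
lemma sum_zmod (g : ZMod 3 → K) : ∑ c : ZMod 3, g c = g 0 + g 1 + g 2 := Fin.sum_univ_three g

lemma ff_eq (z : K) : ff z = -((z ^ 3 - z) ^ 5 - (z ^ 3 - z) ^ 3 + (z ^ 3 - z)) := by
  rw [ff, sum_zmod, map_zero, map_one, map_ofNat]
  linear_combination (z ^ 17 + 17 * z ^ 16 + 227 * z ^ 15 + 2040 * z ^ 14 + 13485 * z ^ 13 + 68068 * z ^ 12 + 268150 * z ^ 11 + 836264 * z ^ 10 + 2082553 * z ^ 9 + 4157010 * z ^ 8 + 6644736 * z ^ 7 + 8452808 * z ^ 6 + 8450744 * z ^ 5 + 6499780 * z ^ 4 + 3713934 * z ^ 3 + 1485528 * z ^ 2 + 371376 * z + 43691) * three_alg K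

lemma plane_sum (z p q : K) :
    ∑ a : ZMod 3, ∑ b : ZMod 3, ff (z + algebraMap (ZMod 3) K a * p + algebraMap (ZMod 3) K b * q) = 0 := by
  have h3 := three_alg K
  have key : ∀ W P Q : K, ∑ a : ZMod 3, ∑ b : ZMod 3,
      -((W + algebraMap (ZMod 3) K a * P + algebraMap (ZMod 3) K b * Q) ^ 5 -
        (W + algebraMap (ZMod 3) K a * P + algebraMap (ZMod 3) K b * Q) ^ 3 +
        (W + algebraMap (ZMod 3) K a * P + algebraMap (ZMod 3) K b * Q)) = 0 := by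
    intro W P Q
    simp only [sum_zmod, map_zero, map_one, map_ofNat]
    linear_combination -(3 * W ^ 5 + 15 * W ^ 4 * P + 15 * W ^ 4 * Q + 50 * W ^ 3 * P ^ 2 + 60 * W ^ 3 * P * Q + 50 * W ^ 3 * Q ^ 2 - 3 * W ^ 3 + 90 * W ^ 2 * P ^ 3 + 150 * W ^ 2 * P ^ 2 * Q + 150 * W ^ 2 * P * Q ^ 2 - 9 * W ^ 2 * P + 90 * W ^ 2 * Q ^ 3 - 9 * W ^ 2 * Q + 85 * W * P ^ 4 + 180 * W * P ^ 3 * Q + 250 * W * P ^ 2 * Q ^ 2 - 15 * W * P ^ 2 + 180 * W * P * Q ^ 3 - 18 * W * P * Q + 85 * W * Q ^ 4 - 15 * W * Q ^ 2 + 3 * W + 33 * P ^ 5 + 85 * P ^ 4 * Q + 150 * P ^ 3 * Q ^ 2 - 9 * P ^ 3 + 150 * P ^ 2 * Q ^ 3 - 15 * P ^ 2 * Q + 85 * P * Q ^ 4 - 15 * P * Q ^ 2 + 3 * P + 33 * Q ^ 5 - 9 * Q ^ 3 + 3 * Q) * h3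
  rw [← key (z ^ 3 - z) (p ^ 3 - p) (q ^ 3 - q)]
  refine Finset.sum_congr rfl (fun a _ => Finset.sum_congr rfl (fun b _ => ?_))
  rw [ff_eq]
  have ha : (algebraMap (ZMod 3) K a) ^ 3 = algebraMap (ZMod 3) K a := by
    rw [← map_pow]
    congr 1
    revert a
    decide
  have hb : (algebraMap (ZMod 3) K b) ^ 3 = algebraMap (ZMod 3) K b := by
    rw [← map_pow]
    congr 1
    revert b
    decide
  generalize algebraMap (ZMod 3) K a = α at *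
  generalize algebraMap (ZMod 3) K b = β at *
  have e : (z + α * p + β * q) ^ 3 - (z + α * p + β * q) = (z ^ 3 - z) + α * (p ^ 3 - p) + β * (q ^ 3 - q) := by
    linear_combination p ^ 3 * ha + q ^ 3 * hb + (z ^ 2 * α * p + z ^ 2 * β * q + z * α ^ 2 * p ^ 2 +
      2 * z * α * p * β * q + z * β ^ 2 * q ^ 2 + α ^ 2 * p ^ 2 * β * q + α * p * β ^ 2 * q ^ 2) * h3
  rw [e]

end Pool.Agent.MP_b811f7_nt
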