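import Pool.Agent.MP_b811f7_nt.Place

set_option autoImplicit false

namespace Pool.Agent.MP_b811f7_nt

open Polynomial

noncomputable def qA : (ZMod 3)[X] := X ^ 3 + 2 * X ^ 2 + 1
noncomputable def qB : (ZMod 3)[X] := X ^ 3 + 2 * X + 1
noncomputable def qW : (ZMod 3)[X] := X ^ 5 + 2 * X + 1

lemma natDegree_qW : qW.natDegree = 5 := by unfold qW; compute_degree!
lemma natDegree_qB : qB.natDegree = 3 := by unfold qB; compute_degree!
lemma natDegree_qA : qA.natDegree = 3 := by unfold qA; compute_degree!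
lemma monic_qW : qW.Monic := by unfold qW; monicity!
lemma monic_qB : qB.Monic := by unfold qB; monicity!
lemma qW_ne_zero : qW ≠ 0 := monic_qW.ne_zero
lemma qB_ne_zero : qB ≠ 0 := monic_qB.ne_zero

lemma eval_qB (r : ZMod 3) : qB.eval r = 1 := by
  have h : qB.eval r = r ^ 3 + 2 * r + 1 := by simp [qB]
  rw [h]
  clear h
  revert r
  decide

lemma eval_qW (r : ZMod 3) : qW.eval r = 1 := by
  have h : qW.eval r = r ^ 5 + 2 * r + 1 := by simp [qW]
  rw [h]
  clear h
  revert r
  decide

lemma no_quad : ∀ s t u v w : ZMod 3, ¬ (t * w = 1 ∧ s * w + t * v = 2 ∧ w + s * v + t * u = 0 ∧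
    v + s * u + t = 0 ∧ u + s = 0) := by
  decide

lemma coeff_qW (n : ℕ) : qW.coeff n = (if n = 5 then 1 else 0) + 2 * (if n = 1 then 1 else 0) + (if n = 0 then 1 else 0) := by
  have h2 : (2 : (ZMod 3)[X]) = C 2 := rfl
  rw [qW, h2]
  simp only [coeff_add, coeff_X_pow, coeff_C_mul, coeff_X, coeff_one]
  congr 2
  · congr 2
    exact propext eq_comm

lemma irreducible_qW : Irreducible qW := by
  rw [monic_qW.irreducible_iff_natDegree']
  refine ⟨fun h => ?_, fun g h hg hh hgh => ?_⟩
  · have := congrArg natDegree h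
    rw [natDegree_qW, natDegree_one] at this
    omega
  · have hdeg : g.natDegree + h.natDegree = 5 := by
      rw [← hg.natDegree_mul hh, hgh, natDegree_qW]
    rw [natDegree_qW, Finset.mem_Ioc]
    rintro ⟨h1, h2⟩
    -- h is the factor of small degree
    have h3 : h.natDegree = 1 ∨ h.natDegree = 2 := by omega
    rcases h3 with h3 | h3
    · obtain ⟨r, hr⟩ := exists_root_of_degree_eq_one (p := h) (by
        rw [degree_eq_natDegree hh.ne_zero, h3]; rfl)
      have h4 : qW.eval r = 0 := by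
        rw [← hgh, eval_mul, hr.eq_zero, mul_zero]
      rw [eval_qW] at h4
      exact one_ne_zero h4
    · have h4 : g.natDegree = 3 := by omega
      have c : ∀ n, ∑ x ∈ Finset.HasAntidiagonal.antidiagonal n, g.coeff x.1 * h.coeff x.2 = qW.coeff n := by
        intro n
        rw [← coeff_mul, hgh]
      have hg3 : g.coeff 3 = 1 := by
        have := hg.coeff_natDegree
        rwa [h4] at this
      have hg4 : g.coeff 4 = 0 := coeff_eq_zero_of_natDegree_lt (by omega)
      have hh2 : h.coeff 2 = 1 := by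
        have := hh.coeff_natDegree
        rwa [h3] at this
      have hh3 : h.coeff 3 = 0 := coeff_eq_zero_of_natDegree_lt (by omega)
      have hh4 : h.coeff 4 = 0 := coeff_eq_zero_of_natDegree_lt (by omega)
      have c0 := c 0
      have c1 := c 1
      have c2 := c 2
      have c3 := c 3
      have c4 := c 4
      rw [coeff_qW] at c0 c1 c2 c3 c4
      simp [Finset.Nat.antidiagonal_succ, hg3, hg4, hh2, hh3, hh4] at c0 c1 c2 c3 c4
      apply no_quad (h.coeff 1) (h.coeff 0) (g.coeff 2) (g.coeff 1) (g.coeff 0)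
      refine ⟨?_, ?_, ?_, ?_, ?_⟩
      · linear_combination c0
      · linear_combination c1
      · linear_combination c2
      · linear_combination c3
      · linear_combination c4


/-- the field `K` with its generators -/
structure Setup {K : Type*} [Field K] (φ : (ZMod 3)[X] →+* K) (y : K) : Prop where
  inj : Function.Injective φ
  rel : φ qB * (y ^ 3 - y) = φ qA
  span : ∀ z : K, ∃ d Q0 Q1 Q2 : (ZMod 3)[X], d ≠ 0 ∧ z * φ d = φ Q0 + φ Q1 * y + φ Q2 * y ^ 2

section Val

variable {K : Type*} [Field K] {φ : (ZMod 3)[X] →+* K} {y : K}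

lemma three_poly : (3 : (ZMod 3)[X]) = 0 := by
  have h : (3 : ZMod 3) = 0 := by decide
  have : (3 : (ZMod 3)[X]) = C 3 := rfl
  rw [this, h, map_zero]

lemma three_K (φ : (ZMod 3)[X] →+* K) : (3 : K) = 0 := by
  have : φ 3 = φ 0 := by rw [three_poly]
  rwa [map_ofNat, map_zero] at this

lemma phi_C (φ : (ZMod 3)[X] →+* K) (c : ZMod 3) : φ (C c) = ((c.val : ℕ) : K) := by
  conv_lhs => rw [← ZMod.natCast_zmod_val c]
  rw [map_natCast C, map_natCast]

lemma phi_mem (O : ValuationSubring K) (hx : φ X ∈ O) (P : (ZMod 3)[X]) : φ P ∈ O := by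
  induction P using Polynomial.induction_on' with
  | add p q hp hq => rw [map_add]; exact O.add_mem _ _ hp hq
  | monomial n a =>
    rw [← C_mul_X_pow_eq_monomial, map_mul, map_pow, phi_C]
    exact O.mul_mem _ _ (natCast_mem O _) (pow_mem hx n)

lemma unit_add (O : ValuationSubring K) {t s : K} (ht : t⁻¹ ∉ O) (hs : s ∈ O) :
    1 + t * s ≠ 0 ∧ (1 + t * s)⁻¹ ∈ O := by
  have ht0 : t ≠ 0 := by
    rintro rfl
    rw [inv_zero] at ht
    exact ht O.zero_mem
  have h1 : O.valuation t < 1 := by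
    by_contra h
    rw [not_lt] at h
    apply ht
    rw [← ValuationSubring.valuation_le_one_iff, map_inv₀]
    exact inv_le_one_of_one_le₀ h
  have h2 : O.valuation (t * s) < 1 := by
    rw [map_mul]
    have h3 := (ValuationSubring.valuation_le_one_iff O s).mpr hs
    calc O.valuation t * O.valuation s ≤ O.valuation t * 1 := by gcongr
      _ < 1 := by rwa [mul_one]
  have h3 : O.valuation (1 + t * s) = 1 := Valuation.map_one_add_of_lt _ h2
  constructor
  · intro h
    rw [h, map_zero] at h3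
    exact zero_ne_one h3
  · rw [← ValuationSubring.valuation_le_one_iff, map_inv₀, h3, inv_one]

lemma Y_mem (h : Setup φ y) (O : ValuationSubring K) (hx : φ X ∈ O) : φ qB * y ∈ O := by
  rcases O.mem_or_inv_mem (φ qB * y) with h1 | h1
  · exact h1
  rcases eq_or_ne (φ qB * y) 0 with h0 | h0
  · rw [h0]; exact O.zero_mem
  have h2 : φ qB * y = φ qB ^ 2 * (φ qB * y)⁻¹ + φ qA * φ qB ^ 2 * ((φ qB * y)⁻¹ * (φ qB * y)⁻¹) := by
    have h3 : (φ qB * y) ^ 3 = φ qB ^ 2 * (φ qB * y) + φ qA * φ qB ^ 2 := by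
      linear_combination (φ qB ^ 2) * h.rel
    have h4 := mul_inv_cancel₀ h0
    generalize φ qB * y = Y at *
    generalize Y⁻¹ = Z at *
    linear_combination (Z * Z) * h3 + (- Y ^ 2 * Z - Y + φ qB ^ 2 * Z) * h4
  rw [h2]
  have hb := phi_mem O hx qB
  have ha := phi_mem O hx qA
  exact O.add_mem _ _ (O.mul_mem _ _ (pow_mem hb 2) h1)
    (O.mul_mem _ _ (O.mul_mem _ _ ha (pow_mem hb 2)) (O.mul_mem _ _ h1 h1))

lemma Z_mem (h : Setup φ y) (O : ValuationSubring K) (hx : φ X ∈ O) : φ qB * y ^ 2 ∈ O := by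
  rcases O.mem_or_inv_mem (φ qB * y ^ 2) with h1 | h1
  · exact h1
  rcases eq_or_ne (φ qB * y ^ 2) 0 with h0 | h0
  · rw [h0]; exact O.zero_mem
  have h2 : φ qB * y ^ 2 = φ qB + φ qA * (φ qB * y) * (φ qB * y ^ 2)⁻¹ := by
    have h3 : (φ qB * y ^ 2) * (φ qB * y ^ 2) = φ qB * (φ qB * y ^ 2) + φ qA * (φ qB * y) := by
      linear_combination (φ qB * y) * h.rel
    have h4 := mul_inv_cancel₀ h0
    generalize φ qB * y ^ 2 = Z at *
    generalize Z⁻¹ = W at *
    linear_combination W * h3 + (- Z + φ qB) * h4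
  rw [h2]
  exact O.add_mem _ _ (phi_mem O hx qB)
    (O.mul_mem _ _ (O.mul_mem _ _ (phi_mem O hx qA) (Y_mem h O hx)) h1)

end Val

end Pool.Agent.MP_b811f7_nt
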